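import Pool.Agent.Helper79.GT.Defs2
import Pool.Agent.Helper79.GS.St1

/-!
# Project GT (MP_c2d095_lc): statements, part 1: the value of the game (positional and situational superko)

Several modules are variants of modules of the project GS; the proofs there (`Pool/Agent/<Helper>/GS/M_<NAME>.lean`) may be
copied and adapted.  `σ x = -s x` for `c = true`, `s x` for `c = false`.
-/

set_option autoImplicit false

namespace Pool.Agent.Helper79.GT

open Pool.Agent.Helper19.SK Pool.Agent.Helper79.GS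

/-- LOS (about 100 lines; variant of `Pool/Agent/Helper40/GS/M_LOC.lean`)
(The value depends only on the history in the set of boards which can still be reached.)
Proof.  Strong induction on `2 * ((Hᶜ).ncard + (H'ᶜ).ncard) + (if ps then 0 else 1)`, unfolding `MWs` once on both sides (unfolding lemma: `rw [MWs]`).
Pass: the histories become `insert (!c, b) H`, `insert (!c, b) H'`, which agree on the boards which can be reached from `b`; the complements do not grow
and `ps` becomes `true`.  Placement `b → b'`: `b'` can be reached, so `okk sk c b' H ↔ okk sk c b' H'`; the boards which can be reached from `b'` can be reached from `b` (`Rch` is transitive);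
`insert (!c, b') H` and `insert (!c, b') H'` agree there.
Hypotheses: none. -/
def StLOS : Prop := ∀ (P : Type) [Finite P] (A : Arena P) (sk : Bool) (H H' : Set (Bool × P)) (ps c : Bool) (b : P),
  (∀ k x, Rch A b k x → ∀ s, ((s, x) ∈ H ↔ (s, x) ∈ H')) → (MWs A sk H ps c b ↔ MWs A sk H' ps c b)

/-- XLS (about 130 lines; variant of `Pool/Agent/Helper26/GS/M_XLC.lean`)
(`XINS` depends only on some situations in the levels between the board and the threshold, and not on the board itself.)
Proof.  Induction on `k`: if `mg A c u / 4 + 1 = k`, `¬ ahead A c u`, then `XkS A EX V c k u ↔ XkS A EX V' c k u`.  `k = 0` impossible.  `k + 1`: the two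
graphs are equal (`funext`, `propext`): let `s y = s u`, `rv A c y x`.  `y ≠ u`: `σ y = σ u`, so `(c, y) ∈ V ↔ (c, y) ∈ V'`.  `σ x = σ u - 4` (hLVL), so `(!c, x) ∈ V ↔ (!c, x) ∈ V'`.
If `¬ ahead A c x` then `mg A c x / 4 + 1 = k` (hLVL), and the hypotheses hold for `x` (`σ z ≤ σ x` implies `σ z < σ u`, so `z ≠ u`), so the induction hypothesis gives
`XkS .. V .. k x ↔ XkS .. V' .. k x`.
Hypotheses: hLVL (of GS). -/
def StXLS : Prop := ∀ (P : Type) (A : Arena P), Sc A → ∀ (EX : Bool → P → Prop) (V V' : Set (Bool × P)) (c : Bool) (u : P),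
  ¬ ahead A c u →
  (∀ x, x ≠ u → (if c = true then -A.s x ≤ -A.s u else A.s x ≤ A.s u) → ((c, x) ∈ V ↔ (c, x) ∈ V')) →
  (∀ x, (if c = true then -A.s x < -A.s u else A.s x < A.s u) → ((!c, x) ∈ V ↔ (!c, x) ∈ V')) →
  (XINS A EX V c u ↔ XINS A EX V' c u)

/-- GRS (about 120 lines; variant of `Pool/Agent/Helper89/GS/M_GRD.lean`, simpler)
(The graph after one round, situational superko.)
Proof.  Put `H' = insert (c, w) (insert (!c, v) H)`.  Let `s y = s w` (`= s u`, hLVL: `w`, `u` are predecessors of `v`) and `rv A c y x`.  Left vertices: `(c, y) ∉ H'` iff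
`y ≠ w` and `(c, y) ∉ H` (`c ≠ !c`); so `y = w ∨ ((c, y) ∉ H' ∧ ¬ EX c y)` iff `(c, y) ∉ H ∧ ¬ EX c y` (`(c, w) ∉ H`, `¬ EX c w`) iff `y ≠ u ∧ (y = u ∨ ((c, y) ∉ H ∧ ¬ EX c y))` (`(c, u) ∈ H`).  Right
vertices: `(!c, x) ∉ H'` iff `x ≠ v ∧ (!c, x) ∉ H`.  For `¬ ahead A c x`: `mg A c x / 4 + 1 = k` (hLVL for `rv A c y x`; `y` has the margin of `u`), so both `XkS .. k x` are `XINS .. x`; they are
equivalent by hXLS for `x`: left situations: `z ≠ w` if `σ z ≤ σ x` (`σ x = σ u - 4`); right situations: `z ≠ v` if `σ z < σ x` (`σ v = σ x`).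
Hypotheses: hLVL (of GS) hXLS. -/
def StGRS : Prop := ∀ (P : Type) (A : Arena P), Sc A → ∀ (EX : Bool → P → Prop) (H : Set (Bool × P)) (c : Bool)
  (u v w : P), ¬ ahead A c u → (c, u) ∈ H → rv A c u v → (!c, v) ∉ H → (c, w) ∉ H → ¬ EX c w → rv A c w v →
  ∀ k, k = mg A c u / 4 →
  GrS A EX (insert (c, w) (insert (!c, v) H)) c (XkS A EX (insert (c, w) (insert (!c, v) H)) c k) w =
    del2 (GrS A EX H c (XkS A EX H c k) u) u v

/-- BES (about 250 lines, important; variant of `Pool/Agent/Helper80/GS/M_BEH.lean`)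
(The player who is behind and to move wins iff `XINS`; situational superko.)
Proof.  Induction on (`mg A c u / 4`, `(Hᶜ).ncard`) (lexicographic), for all `u`, `H`, `ps` (`c` fixed).  Let `k = mg A c u / 4`, `E = GrS A EX H c (XkS A EX H c k) u`, so `XINS A EX H c u` is
`EX c u ∨ Ess E u`.  For `x` with `rv A c y x`, `s y = s u`, `¬ ahead A c x`: `XkS A EX H c k x` is `XINS A EX H c x` (hLVL).
(←) If `EX c u`: hEX gives the winning placement.  Otherwise `Ess E u`; hGEO gives `v` with `E u v` and `∀ w ≠ u, E w v → Ess (del2 E u v) w`.  `E u v` says `rv A c u v`, `(!c, v) ∉ H`, `¬ EX (!c) v`,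
`¬ ahead A c v → XINS A EX H c v`.  Claim `¬ MWs A true (insert (!c, v) H) false (!c) v` (so the placement `u → v` wins).  Unfold: (pass) `MWs A true (insert (c, v) (insert (!c, v) H)) true c v` holds:
if `ahead A c v` by the first clause, otherwise by induction (smaller margin) from `XINS` with this history, which is `XINS A EX H c v` by hXLS (the new situations are the board `v` itself).
(placement `v → b'` of `!c`, `(c, b') ∉ insert (!c, v) H`, that is `(c, b') ∉ H`) not reversible: if `¬ MWs .. b'` then `EX (!c) v` by hEX, contradiction.  Reversible: `w = b'`, `rv A c w v`,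
`s w = s u` (hLVL), `w ≠ u` (`(c, u) ∈ H`); claim `MWs A true (insert (c, w) (insert (!c, v) H)) false c w`: by induction (same margin, smaller complement) this is `XINS ..  c w`: if `EX c w` clear;
otherwise `E w v` holds, so `Ess (del2 E u v) w`, and this is the graph of `XINS` by hGRS.
(→) Let `¬ EX c u`, `¬ Ess E u`.  Claim `¬ MWs A true H ps c u`.  First clause: `u` is not ahead.  Pass: `MWs A true (insert (!c, u) H) true (!c) u` holds by its first clause (`ahead A (!c) u`).
Placement `u → b'`, `(!c, b') ∉ H`, not reversible: it would give `EX c u` by hEX.  Reversible, `v = b'`: claim `MWs A true (insert (!c, v) H) false (!c) v`.  If `EX (!c) v`: by hEX.  If `¬ ahead A c v` and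
`¬ XINS A EX H c v`: by passing: `¬ MWs A true (insert (c, v) (insert (!c, v) H)) true c v` by induction and hXLS.  Otherwise `E u v`; hGEO gives `w ≠ u`, `E w v`, `¬ Ess (del2 E u v) w`; so
`(c, w) ∉ H`, `¬ EX c w`, `rv A c w v`; `!c` places `v → w`, and `¬ MWs A true (insert (c, w) (insert (!c, v) H)) false c w` by induction: `XINS` there is `EX c w ∨ Ess (del2 E u v) w` by hGRS, false.
Hypotheses: hLVL (of GS) hXLS hGEO (of GS) hGRS. -/
def StBES : Prop := ∀ (P : Type) [Finite P] (A : Arena P), Sc A → ∀ (EX : Bool → P → Prop) (Cm : Set P)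
  (H₁ : Set (Bool × P)),
  (∀ (c : Bool) (u v : P), u ∈ Cm → rv A c u v → v ∈ Cm) →
  (∀ (c : Bool) (u : P), u ∈ Cm → ∀ H : Set (Bool × P), (∀ x, x ∉ Cm → ∀ s, ((s, x) ∈ H ↔ (s, x) ∈ H₁)) →
    ((∃ b', A.mv c u b' ∧ ¬ A.mv (!c) b' u ∧ (!c, b') ∉ H ∧ ¬ MWs A true (insert (!c, b') H) false (!c) b') ↔ EX c u)) →
  ∀ (c : Bool) (u : P) (H : Set (Bool × P)) (ps : Bool), u ∈ Cm → (c, u) ∈ H →
  (∀ x, x ∉ Cm → ∀ s, ((s, x) ∈ H ↔ (s, x) ∈ H₁)) → ¬ ahead A c u → (MWs A true H ps c u ↔ XINS A EX H c u)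

/-- AHS (about 100 lines; variant of `Pool/Agent/Helper94/GS/M_AHD.lean`)
(The player who is ahead; situational superko.)  Same hypotheses as BES.
Proof.  Unfold `MWs A true H false c u`: first clause is false.  Second clause: `¬ MWs A true (insert (!c, u) H) true (!c) u`, by hBES for the player `!c` (`¬ ahead A (!c) u`).  Third clause: a placement which is
not reversible: hEX; a reversible placement to `w`, `(!c, w) ∉ H`: `¬ MWs A true (insert (!c, w) H) false (!c) w`; `w` is not ahead for `!c` (`s w = s u ± 4` in the direction of `c`), `w ∈ Cm`: hBES.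
Hypotheses: hBES. -/
def StAHS : Prop := ∀ (P : Type) [Finite P] (A : Arena P), Sc A → ∀ (EX : Bool → P → Prop) (Cm : Set P)
  (H₁ : Set (Bool × P)),
  (∀ (c : Bool) (u v : P), u ∈ Cm → rv A c u v → v ∈ Cm) →
  (∀ (c : Bool) (u : P), u ∈ Cm → ∀ H : Set (Bool × P), (∀ x, x ∉ Cm → ∀ s, ((s, x) ∈ H ↔ (s, x) ∈ H₁)) →
    ((∃ b', A.mv c u b' ∧ ¬ A.mv (!c) b' u ∧ (!c, b') ∉ H ∧ ¬ MWs A true (insert (!c, b') H) false (!c) b') ↔ EX c u)) →
  ∀ (c : Bool) (u : P) (H : Set (Bool × P)), u ∈ Cm → (c, u) ∈ H →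
  (∀ x, x ∉ Cm → ∀ s, ((s, x) ∈ H ↔ (s, x) ∈ H₁)) → ahead A c u →
  (MWs A true H false c u ↔ (EX c u ∨ ¬ XINS A EX (insert (!c, u) H) (!c) u ∨
    ∃ w, rv A c u w ∧ (!c, w) ∉ H ∧ ¬ XINS A EX (insert (!c, w) H) (!c) w))

/-- WNS (about 220 lines; variant of `Pool/Agent/Helper18/GS/M_WNM.lean`)
(The value, situational superko.)
Proof.  Induction on `r`, for all `b`, `c`.  `Cm = {x | Rch A b 0 x}`, `H₁ = insert (c, b) H₀`, `EX = ENs A true H₀ r`.  As in WNM: `Cm` is closed under reversible placements, `b` is reached from every `x ∈ Cm` by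
reversible placements.  hEX: let `u ∈ Cm`, `H` agree with `H₁` outside `Cm`, `u → b'` a placement of `c'` which is not reversible.  (i) `r ≥ 1`; (ii) if `x` is reached from `b'` then `x ∉ Cm` (otherwise a closed
sequence contradicts `Bd A r b`); so `b' ∉ Cm`, and `(!c', b') ∈ H ↔ (!c', b') ∈ H₀`; (iii) `Bd A (r - 1) b'`; (iv) `insert (!c', b') H` and `insert (!c', b') H₀` agree on the boards which can be reached from `b'`
(they are not in `Cm`, `b ∈ Cm`), so `MWs A true (insert (!c', b') H) false (!c') b' ↔ MWs A true (insert (!c', b') H₀) false (!c') b'` (hLOS) `↔ WNs A true H₀ (r - 1) (!c') b'` (induction).  hBES, hAHS with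
`u = b`, `H = insert (c, b) H₀` give the value; compare with `WstS A true H₀ EX c b`: not ahead: `Vis true H₀ c b b` is `insert (!c, b) (insert (c, b) H₀)`, and hXLS removes the right situation `(!c, b)`.  Ahead:
`Vis true H₀ (!c) b b = insert (!c, b) (insert (c, b) H₀)` (`!(!c) = c`), `Vis true H₀ (!c) b w = insert (!c, w) (insert (c, b) H₀)`, and `(!c, w) ∉ insert (c, b) H₀` iff `(!c, w) ∉ H₀`; `w ≠ b` by hLVL.
Hypotheses: hLVL (of GS) hXLS hLOS hBES hAHS. -/
def StWNS : Prop := ∀ (P : Type) [Finite P] (A : Arena P), Sc A → ∀ (H₀ : Set (Bool × P)) (r : ℕ) (b : P) (c : Bool),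
  Bd A r b → (MWs A true (insert (c, b) H₀) false c b ↔ WNs A true H₀ r c b)

/-- BRG (about 100 lines)
(Positional superko: the value with situations is the value with boards.)
Proof.  (1) If `V` is symmetric (`(true, x) ∈ V ↔ (false, x) ∈ V`) then `GrS A EX V c X u = Gr A EX {x | (true, x) ∈ V} c X u` and `XkS A EX V c k u ↔ Xk A EX {x | (true, x) ∈ V} c k u` (induction on `k`), so the same for
`XINS`, `XIN`.  (2) `Vis false H₀ c a b` is symmetric, with the boards `{x | (true, x) ∈ H₀} ∪ {a, b}`: `insert b _` for `a = b`, `insert w (insert b _)` for `(b, w)`.  (3) `WstS`, `extS`, induction on `r` (for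
`(!c, x) ∉ H₀` use the symmetry).
Hypotheses: none. -/
def StBRG : Prop := ∀ (P : Type) (A : Arena P) (H₀ : Set (Bool × P)), (∀ x, (true, x) ∈ H₀ ↔ (false, x) ∈ H₀) →
  ∀ (r : ℕ) (c : Bool) (b : P), WNs A false H₀ r c b ↔ WN A {x | (true, x) ∈ H₀} r c b

/-- BRM (about 80 lines)
(Positional superko: the game with situations is the game with boards.)
Proof.  Strong induction on `2 * (Hᶜ).ncard + (if ps then 0 else 1)`, unfolding `MWs` and `MW` once.  Pass: the boards of `insert (!c, b) H` are the boards of `H` (`b` is one of them).  Placement: `okk false c b' H` says that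
`b'` is not a board of `H`; the boards of `insert (!c, b') H` are `insert b' _`.
Hypotheses: none. -/
def StBRM : Prop := ∀ (P : Type) [Finite P] (A : Arena P) (H : Set (Bool × P)) (ps c : Bool) (b : P),
  (∃ s, (s, b) ∈ H) → (MWs A false H ps c b ↔ MW A {x | ∃ s, (s, x) ∈ H} ps c b)

/-- VAL (about 50 lines)
(The value for both rules.)
Proof.  `sk = true`: hWNS.  `sk = false`: hBRM, `{x | ∃ s, (s, x) ∈ insert (c, b) H₀} = insert b {x | (true, x) ∈ H₀}` (symmetry), hWNM, hBRG.
Hypotheses: hWNM (of GS) hWNS hBRG hBRM. -/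
def StVAL : Prop := ∀ (P : Type) [Finite P] (A : Arena P), Sc A → ∀ (sk : Bool) (H₀ : Set (Bool × P)),
  (sk = false → ∀ x, (true, x) ∈ H₀ ↔ (false, x) ∈ H₀) → ∀ (r : ℕ) (b : P) (c : Bool), Bd A r b →
  (MWs A sk (insert (c, b) H₀) false c b ↔ WNs A sk H₀ r c b)

/-- TRS (about 200 lines; variant of `Pool/Agent/Helper76/GS/M_TRN.lean`)
(Transport along an injection.)
Proof.  As in TRN with situations `(s, a)`, `(s, f a)`: `Vis sk H₀ c a b` and `Vis sk H₀' c (f a) (f b)` correspond (`f` injective).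
Hypotheses: none. -/
def StTRS : Prop := ∀ (P P' : Type) (A : Arena P) (A' : Arena P') (f : P → P'), Function.Injective f →
  (∀ c a b, A.mv c a b ↔ A'.mv c (f a) (f b)) → (∀ c a' b', A'.mv c a' b' → (∃ a, f a = a') ∧ ∃ b, f b = b') →
  (∀ a, A.s a = A'.s (f a)) → ∀ (H₀ : Set (Bool × P)) (H₀' : Set (Bool × P')), (∀ s a, (s, a) ∈ H₀ ↔ (s, f a) ∈ H₀') →
  ∀ (sk : Bool) (r : ℕ) (c : Bool) (b : P), WNs A sk H₀ r c b ↔ WNs A' sk H₀' r c (f b)

end Pool.Agent.Helper79.GT
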