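import Pool.Agent.Helper79.GT.Defs2

/-!
# Project GT (MP_c2d095_lc): statements, part 2: the game with differences and declarations, and the game in the window

`wA A D g M B d₀`: arena with the boards `inl (b, i)` (board `b`, difference `d₀ - B + i`) and `inr c` (the player `c` has won by
a declared placement); `uA A D pt`: arena of the undeclared placements.
-/

set_option autoImplicit false

namespace Pool.Agent.Helper79.GT

open Pool.Agent.Helper19.SK Pool.Agent.Helper79.GS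

/-- WSC (about 60 lines)
(Scores.)
Proof.  `rv (wA ..) true x y`: `x = inl (b, i)`, `y = inl (b', j)` (from `inr` there is no placement).  `A.mv true b b'`, `A.mv false b' b`, so by `ko`: `A.cp true b b' = 1`, `j = i + 1`,
`A.sc b' (d₀ - B + j) = A.sc b (d₀ - B + i) + g` and `-(S + g) / g = -S / g - 1` for `g ≥ 1`.
Hypotheses: none. -/
def StWSC : Prop := ∀ (P : Type) (A : Gm P) (D : Bool → Bool → P → P → Prop) (pt : P → ℤ) (g N M B : ℕ) (d₀ : ℤ),
  KoLaw A pt g N → Sc (wA A D g M B d₀)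

/-- WPR (about 100 lines)
(Projection.)  Walks in the window between boards `inl` are walks of undeclared placements with the same number of placements which are not reversible.
Proof.  Induction on `Rch`, for `y` with the target `inl a'` (generalize the target: every board on the way to `inl a'` is an `inl`, since there is no placement from `inr`).  A placement `inl x → inl y` of `c` in
the window is `und A D c x.1 y.1`.  If it is reversible in the window then `und A D (!c) y.1 x.1`.  Conversely let `und A D (!c) y.1 x.1`: then `A.mv c x.1 y.1`, `A.mv (!c) y.1 x.1`; by `ko` (for `c = true`, and for `c = false`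
applied to `y.1`, `x.1`; `!(!c) = c`) `A.cp c x.1 y.1 + A.cp (!c) y.1 x.1 = 0`, so `x.2 = y.2 + A.cp (!c) ..` and the placement is reversible in the window.
Second clause: the last placement goes to `inr`, it is not reversible; it is preceded by a walk to some `inl`.
Hypotheses: none. -/
def StWPR : Prop := ∀ (P : Type) (A : Gm P) (D : Bool → Bool → P → P → Prop) (pt : P → ℤ) (g N M B : ℕ) (d₀ : ℤ),
  KoLaw A pt g N → ∀ (a : P × Fin M) (k : ℕ),
    (∀ a', Rch (wA A D g M B d₀) (Sum.inl a) k (Sum.inl a') → Rch (uA A D pt) a.1 k a'.1) ∧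
    (∀ c, Rch (wA A D g M B d₀) (Sum.inl a) k (Sum.inr c) →
      ∃ k' a', k = k' + 1 ∧ Rch (wA A D g M B d₀) (Sum.inl a) k' (Sum.inl a'))

/-- WBD (about 30 lines)
(Budget.)
Proof.  hWPR.
Hypotheses: hWPR. -/
def StWBD : Prop := ∀ (P : Type) (A : Gm P) (D : Bool → Bool → P → P → Prop) (pt : P → ℤ) (g N M B R : ℕ) (d₀ : ℤ),
  KoLaw A pt g N → ∀ a : P × Fin M, Bd (uA A D pt) R a.1 → Bd (wA A D g M B d₀) (R + 1) (Sum.inl a)

/-- WDF (about 100 lines)
(Differences.)
Proof.  Induction on `Rch` (targets `inl`).  `Δ = 4 * (a'.2 - a.2) - (pt a'.1 - pt a.1)`.  A reversible placement does not change `Δ`: `und A D c x y`, `und A D (!c) y x`, by `ko` `pt` changes by `± 4` and `A.cp c x y` is `± 1` with the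
same sign.  Another placement changes `Δ` by at most `4 N + 2 N`.
Hypotheses: none. -/
def StWDF : Prop := ∀ (P : Type) (A : Gm P) (D : Bool → Bool → P → P → Prop) (pt : P → ℤ) (g N M B : ℕ) (d₀ : ℤ),
  KoLaw A pt g N → ∀ (a a' : P × Fin M) (k : ℕ), Rch (wA A D g M B d₀) (Sum.inl a) k (Sum.inl a') →
    |4 * ((a'.2.val : ℤ) - a.2.val) - (pt a'.1 - pt a.1)| ≤ 6 * k * N

/-- KEY (about 80 lines)
(A repeated board has the same difference.)
Proof.  By hWPR `Rch (uA ..) a₀.1 k₀ a.1` and `Rch (uA ..) a.1 k a.1` (closed).  If `k ≥ 1`: `Rch (uA ..) a₀.1 (k₀ + j * k) a.1` for all `j` (`Rch` is transitive; induction on `j`), which contradicts `Bd`.  So `k = 0`, and hWDF gives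
`4 * (a'.2 - a.2) = 0`.
Hypotheses: hWPR hWDF. -/
def StKEY : Prop := ∀ (P : Type) (A : Gm P) (D : Bool → Bool → P → P → Prop) (pt : P → ℤ) (g N M B R : ℕ) (d₀ : ℤ),
  KoLaw A pt g N → ∀ a₀ : P × Fin M, Bd (uA A D pt) R a₀.1 → ∀ (a a' : P × Fin M) (k₀ k : ℕ),
  Rch (wA A D g M B d₀) (Sum.inl a₀) k₀ (Sum.inl a) → Rch (wA A D g M B d₀) (Sum.inl a) k (Sum.inl a') →
  a'.1 = a.1 → a' = a

/-- WIN (about 120 lines)
(The differences stay in the window.)  `M = 2 * B + 1`, start `a₀ = (b₀, B)`.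
Proof.  `Rch (uA ..) b₀ k a.1` (hWPR).  Let `j' = a.2 + A.cp c a.1 b'` (an integer).  Case `und A D (!c) b' a.1`: `k ≤ R`, by `ko` `4 * A.cp c a.1 b' = pt b' - pt a.1`, so by hWDF `|4 (j' - B) - (pt b' - pt b₀)| ≤ 6 k N ≤ 6 R N`.  Other case:
`Rch (uA ..) b₀ (k + 1) b'`, so `k + 1 ≤ R` and `|4 (j' - B) - (pt b' - pt b₀)| ≤ 6 k N + 4 N + 2 N ≤ 6 R N`.  So `|4 (j' - B)| ≤ 6 R N + 2 N ≤ 4 B`, `0 ≤ j' ≤ 2 B`.  The last clause: one step of `Rch`
(reversible or not in the window, by cases).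
Hypotheses: hWPR hWDF. -/
def StWIN : Prop := ∀ (P : Type) (A : Gm P) (D : Bool → Bool → P → P → Prop) (pt : P → ℤ) (g N B R : ℕ) (d₀ : ℤ),
  KoLaw A pt g N → (2 * R + 1) * N ≤ B → ∀ b₀ : P, Bd (uA A D pt) R b₀ → ∀ (a : P × Fin (2 * B + 1)) (k : ℕ),
  Rch (wA A D g (2 * B + 1) B d₀) (Sum.inl (b₀, ⟨B, by omega⟩)) k (Sum.inl a) → ∀ (c : Bool) (b' : P), und A D c a.1 b' →
  ∃ j : Fin (2 * B + 1), (j.val : ℤ) = a.2.val + A.cp c a.1 b' ∧
    (wA A D g (2 * B + 1) B d₀).mv c (Sum.inl a) (Sum.inl (b', j)) ∧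
    ∃ k', k' ≤ k + 1 ∧ Rch (wA A D g (2 * B + 1) B d₀) (Sum.inl (b₀, ⟨B, by omega⟩)) k' (Sum.inl (b', j)) ∧
      ∃ l, l ≤ 1 ∧ Rch (wA A D g (2 * B + 1) B d₀) (Sum.inl a) l (Sum.inl (b', j))

/-- INV (about 200 lines)
(The corresponding states.)  `M = 2 * B + 1`, `a₀ = (b₀, B)`.
Proof.  Write `W = wA A D g M B d₀`.  (start) `i1`: definition of `wH`; `i2`: `z = a₀`, `Rch.refl`.  (pass) new situations `(!c, a.1)` and `(!c, inl a)`; `i2` with `z = a`, `Rch.refl`, `i5`.  (legality) Let `und A D c a.1 b'` and `j` as in hWIN.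
`(s, inl (b', j)) ∈ H'` implies `(s, b') ∈ H ∨ (sk = false ∧ (!s, b') ∈ H)` (`i1`).  Conversely let `(s, b') ∈ H`: if `(s, b') ∈ H₀` then `(s, inl (b', j)) ∈ wH sk M H₀ ⊆ H'` (`i3`); otherwise `i2` gives `z` with `z.1 = b'`,
`(s, inl z) ∈ H'`, a walk `a₀ → z` and a walk `z → a`, so with the placement a walk `z → (b', j)` (`Rch` is transitive); hKEY: `(b', j) = z`.  So `okk sk c b' H ↔ okk sk c (inl (b', j)) H'` (cases on `sk`; for `sk = false` all `s`).
(placement) new situations `(!c, b')` and `(!c, inl (b', j))`: `i1` clear, `i2`: `z = (b', j)` for the new one, longer walks for the old ones, `i5`.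
Hypotheses: hKEY hWIN. -/
def StINV : Prop := ∀ (P : Type) (A : Gm P) (D : Bool → Bool → P → P → Prop) (pt : P → ℤ) (g N B R : ℕ) (d₀ : ℤ) (sk : Bool)
  (H₀ : Set (Bool × P)), KoLaw A pt g N → (2 * R + 1) * N ≤ B → ∀ b₀ : P, Bd (uA A D pt) R b₀ →
  (∀ c₀ : Bool, Inv A D sk g (2 * B + 1) B d₀ H₀ (b₀, ⟨B, by omega⟩) (insert (c₀, b₀) H₀)
    (insert (c₀, Sum.inl (b₀, ⟨B, by omega⟩)) (wH sk (2 * B + 1) H₀)) (b₀, ⟨B, by omega⟩)) ∧
  ∀ (H : Set (Bool × P)) (H' : Set (Bool × ((P × Fin (2 * B + 1)) ⊕ Bool))) (a : P × Fin (2 * B + 1)),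
    Inv A D sk g (2 * B + 1) B d₀ H₀ (b₀, ⟨B, by omega⟩) H H' a →
    (∀ c : Bool, Inv A D sk g (2 * B + 1) B d₀ H₀ (b₀, ⟨B, by omega⟩) (insert (!c, a.1) H) (insert (!c, Sum.inl a) H') a) ∧
    ∀ (c : Bool) (b' : P), und A D c a.1 b' → ∃ j : Fin (2 * B + 1), (j.val : ℤ) = a.2.val + A.cp c a.1 b' ∧
      (wA A D g (2 * B + 1) B d₀).mv c (Sum.inl a) (Sum.inl (b', j)) ∧
      (okk sk c b' H ↔ okk sk c (Sum.inl (b', j) : (P × Fin (2 * B + 1)) ⊕ Bool) H') ∧
      (okk sk c b' H → Inv A D sk g (2 * B + 1) B d₀ H₀ (b₀, ⟨B, by omega⟩) (insert (!c, b') H)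
        (insert (!c, Sum.inl (b', j)) H') (b', j))

/-- SML (about 250 lines, important)
(The game and the game in the window.)  `M = 2 * B + 1`, `W = wA A D g M B d₀`.
Proof.  Claim: if `Inv .. H H' a`, `Pl A sk D H₀ c₀ b₀ d₀ H ps c b d` with `b = a.1`, `d = d₀ - B + a.2`, then (`c = true`) `BWg A sk H ps true b d ↔ MWs W sk H' ps true (inl a)` and (`c = false`)
`BWg A sk H ps false b d ↔ ¬ MWs W sk H' ps false (inl a)`.  Strong induction on `2 * (Hᶜ).ncard + (if ps then 0 else 1)` (as in StBMW of GS: unfold `BWg` by cases / constructors, `MWs` by `rw [MWs]`).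
End of the game: `ahead W true (inl a)` iff `0 < A.sc b d` (`-4 * (-S / g) > 0 ↔ S > 0`, `g ≥ 1`).  Pass: `Pl.pass`, hINV.  Placements `b → b'` of `c`: if `und A D c b b'`: hINV gives `j`, the two placements have the same
legality, `Pl.move`, the new states correspond (`d + A.cp c b b' = d₀ - B + j`), the complement of the history is smaller (`(!c, b') ∉ H` since `okk`); induction.  A placement in `W` from `inl a` to `inl (b', j')` is of this form with
`j' = j`.  If not `und`: it is not reversible and `D i c b b'` for some `i`; hypothesis `Sound` (for the state `H, ps, c, b, d`).  `D true`: it is legal and `c` wins; in `W` there is the placement to `inr c`, legal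
(`i4`), and it wins: `¬ MWs W sk _ false (!c) (inr c)`, since by unfolding there is no placement from `inr c` and `MWs W sk _ true c (inr c)` holds by its first clause (`ahead W c (inr c)`: the score is `4` or `0`).  Conversely a
placement to `inr c'` in `W` means `c' = c` and some declared win.  `D false` (and not `D true`): if it is legal, `c` does not win by it, and nothing corresponds in `W`.  Since a player needs only one winning placement, the two
sides agree.  The theorem is the claim for the start (hINV, `Pl.start`).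
Hypotheses: hINV. -/
def StSML : Prop := ∀ (P : Type) [Finite P] (A : Gm P) (D : Bool → Bool → P → P → Prop) (pt : P → ℤ) (g N B R : ℕ) (d₀ : ℤ)
  (sk : Bool) (H₀ : Set (Bool × P)) (c₀ : Bool) (b₀ : P), KoLaw A pt g N → (2 * R + 1) * N ≤ B → Bd (uA A D pt) R b₀ →
  Sound A sk D H₀ c₀ b₀ d₀ →
  (BWg A sk (insert (c₀, b₀) H₀) false c₀ b₀ d₀ ↔
    if c₀ = true then MWs (wA A D g (2 * B + 1) B d₀) sk
      (insert (true, Sum.inl (b₀, ⟨B, by omega⟩)) (wH sk (2 * B + 1) H₀)) false true (Sum.inl (b₀, ⟨B, by omega⟩))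
    else ¬ MWs (wA A D g (2 * B + 1) B d₀) sk
      (insert (false, Sum.inl (b₀, ⟨B, by omega⟩)) (wH sk (2 * B + 1) H₀)) false false (Sum.inl (b₀, ⟨B, by omega⟩)))

end Pool.Agent.Helper79.GT
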