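import Pool.Agent.Helper79.GT.Defs2
import Pool.Agent.Helper79.GS.St2

/-!
# Project GT (MP_c2d095_lc): statements, part 3: Go.  Use the lemmas of `Pool/Agent/Helper19/SK/Basic.lean` and `Ko.lean`.
-/

set_option autoImplicit false

namespace Pool.Agent.Helper79.GT

open Pool.Agent.Helper19.SK Pool.Agent.Helper79.GS

/-- GNM (about 80 lines)
(Stones and territory.)
Proof.  (1) `{v | P v = some c ∨ Encl G P c v}` is the disjoint union of `{v | P v = some c}` and `{v | Encl G P c v}` (`Encl` implies `P v = none`).
(2) `Q = play G P true e` for a ko capture `e` of Black (`KoCapture G P true e`): `Q = put (put P e (some true)) u none`, `P e = none`, `P u = some false`, `e ≠ u`: `{v | Q v = some true} = insert e {v | P v = some true}`,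
`{v | P v = some false} = insert u {v | Q v = some false}`.  With (1) and hKSC (areas change by 2) territories change by 1.
Hypotheses: hKSC (of GS). -/
def StGNM : Prop := ∀ (V : Type) [Finite V] (G : SimpleGraph V),
  (∀ (P : Pos V) (c : Bool), area G P c = num P c + terr G P c) ∧
  ∀ (P : Pos V) (e : V), KoCapture G P true e →
    num (play G P true e) true = num P true + 1 ∧ num P false = num (play G P true e) false + 1 ∧
    terr G (play G P true e) true = terr G P true + 1 ∧ terr G P false = terr G (play G P true e) false + 1 ∧
    area G (play G P true e) true = area G P true + 2 ∧ area G P false = area G (play G P true e) false + 2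

/-- GRM (about 80 lines)
(Numbers of stones after a placement.)  `Q = play G P c e`, `P e = none`.
Proof.  `Q x = some d` implies `put P e (some c) x = some d` (`clear` only removes stones, twice `clear_some`), so `{x | Q x = some d} ⊆ {x | put P e (some c) x = some d}`, which is `{x | P x = some d}` for `d ≠ c` and
`insert e {x | P x = some c}` for `d = c`.  The stones of one colour and the point `e` are different, so `num P c + 1 ≤ Nat.card V`.
Hypotheses: none. -/
def StGRM : Prop := ∀ (V : Type) [Finite V] (G : SimpleGraph V) (c : Bool) (P : Pos V) (e : V), P e = none →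
  num (play G P c e) c ≤ num P c + 1 ∧ num (play G P c e) (!c) ≤ num P (!c) ∧ num P c + 1 ≤ Nat.card V ∧
  num P (!c) ≤ Nat.card V ∧ (∀ d, terr G P d ≤ Nat.card V ∧ area G P d ≤ Nat.card V)

/-- GKL (about 80 lines)
(Ko captures.)
Proof.  `ko`: `(goG G tc).mv` is `(goArena G).mv`; `rv (goArena G) true b b'`; hKRV gives `e` with `KoCapture G b true e`, `b' = play G b true e`; hGNM.  `capd true b b' = (num b false - num b' false) - (num b true + 1 - num b' true) = 1`,
`capd false b' b = (num b' false + 1 - num b false) - (num b' true - num b true) = -1`; the score changes by `2 + 2` (area) or `1 + 1 + 1` (territory).  `bp`, `bc`: hGRM: both numbers of removed stones are between `0` and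
`Nat.card V` (cases `c = true`, `c = false`), `abs_le`.
Hypotheses: hKRV (of GS) hGNM hGRM. -/
def StGKL : Prop := ∀ (V : Type) [Finite V] (G : SimpleGraph V) (tc : Bool),
  KoLaw (goG G tc) (fun P => (area G P true : ℤ) - area G P false) (if tc = true then 3 else 4) (Nat.card V)

/-- ONM (about 150 lines; variant of `Pool/Agent/Helper60/GS/M_ONE.lean`, copy its potential `phi` and the lemma `step`)
(Few placements which decrease the number of stones: few placements which are not reversible.)
Proof.  `N = Nat.card V`, `Φ = N * (2 * N + 1) + 2 * N + 1 > phi`.  `U = und (goG G tc) D`.  Claim for `Rch (uA (goG G tc) D pt) P k x`: there is `k2` with `Sq U P k2 x` and either `x = P`, `k = 0`, `k2 = 0`, or `Alive G x` and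
`phi G x + k ≤ (k2 + 1) * Φ + k2`.  Induction: a placement `x → y` of `c`, `y = play G x c e ≠ x`, `x e = none`, `U c x y`.  `y` is alive (`alive_play`).  From the first kind of state: `phi y ≤ Φ - 1`, `k ≤ 1`, `k2 ≤ 1` (`Sq.keep` or
`Sq.drop`).  Otherwise: if the number of stones decreases: `Sq.drop`, `phi G y + (k + 1) ≤ Φ + k ≤ (k2 + 2) * Φ + k2 + 1`.  If not: at most one stone is removed: the set of the removed stones of `step` has at most one element (number of stones
after: number before plus 1 minus removed stones: `{v | put x e (some c) v ≠ none}` is the union of the stones of `y` and the removed ones), so `step` applies: `phi` does not increase, and decreases by at least 1 if the placement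
is not reversible for `goArena`; it is not reversible in `uA` iff `¬ und (!c) y x`; as `mv c x y` (`!(!c) = c`) `und (!c) y x` holds iff `mv (!c) y x`.  At the end `k ≤ (m + 1) * Φ + m ≤ (m + 1) * (2 * (N + 1)^2 + 1)`
(`Φ ≤ 2 * (N + 1)^2`; `nlinarith` or `Nat.mul_le_mul_left`).
Hypotheses: none. -/
def StONM : Prop := ∀ (V : Type) [Finite V] (G : SimpleGraph V) (tc : Bool) (D : Bool → Bool → Pos V → Pos V → Prop)
  (pt : Pos V → ℤ) (m : ℕ) (P : Pos V), Few (und (goG G tc) D) m P →
  Bd (uA (goG G tc) D pt) ((m + 1) * (2 * (Nat.card V + 1) ^ 2 + 1)) P

end Pool.Agent.Helper79.GT
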