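import Pool.Agent.Helper79.GT.Defs4

/-!
# Project GT (MP_c2d095_lc): statements, part 4: simulation of Turing machines by E2 functions
-/

set_option autoImplicit false

namespace Pool.Agent.Helper79.GT

open Pool.Agent.Helper73.DC Pool.Agent.Helper79.GS Finset
open scoped Classical

/-- SM1 (about 170 lines)
(The simulation is E2.)
Proof.  (tables) `keyM M y < nQ M * 7 * nG M ^ M.tapes =: m₀` (digits: `cQ < nQ`, `cS < 7`, `cG < nG`); so `tab M f x = if x < m₀ then tab M f x else 0`, and `tL6` (finite tables).  `seeN`: composition of the function of the letters with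
`dg β z 1 - 1` (`e_subst` with `σ 0 = ` this function, `σ (i+1) = ` entry `i`), `e_ite`.  `keyN`, `cfgN`: `E2.fsum` over a fixed range, `e_powc` (fixed exponents), `e_dg`.  `sdc`: third clause of `tL5`.  `mvC`: `e_ite`.  `stN`: for fixed `i` the
tests on `i` are decided; `e_ite` for the test of halting.  `itN`: `e_rec` with the bound `N` (all values are `min _ N`; in the step function the value is entry 1 of the context, the other functions are shifted by two;
`itN` is literally a `Nat.rec` with the counter `N`).  `beN`: `e_pw`, `e_powc` with the fixed exponent `k`.  `simP`: finitely many values `cQ M q`: table with `m₀ = nQ M` of the predicate `∃ q, cQ M q = x ∧ M.acc q`.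
Hypotheses: none. -/
def StSM1 : Prop := ∀ (M : OTM (Fin 5)) (C k : ℕ) (N l : VF (Fin 5)) (LT : List (Fin 5) → ℕ → (ℕ → ℕ) → ℕ), E2 N → E2 l →
  E2 (fun w v => LT w (v 0) (fun i => v (i + 1))) → E2P (fun w v => simP M C k (N w v) (l w v) (fun i => LT w i v))

/-- SM2 (about 120 lines)
(Digits of the number of a configuration.)  `S`: number of cells; `nG M ^ S ≤ β`, `S + l + nQ M + 3 ≤ β`.
Proof.  Digits of a sum `Σ_(i < K) f i β^i` with all `f i < β`: `dg β _ i = f i` for `i < K` (induction on `K`), and the sum is `< β^K`.  All fields of `numC` are `< β`: `cQ < nQ`; `pos ≤ l + 1`; `hd < S`; the number of the tape is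
`< nG^S` (digits `cG < nG`).  Digit number `h` of the number of the tape is `cG` of the symbol in the cell `h`.  For `3 + 2 t`, `2 + 2 t`: `(3 + 2 t - 3) / 2 = t`, `(2 + 2 t - 2) / 2 = t`, parity: `omega`.
Hypotheses: none. -/
def StSM2 : Prop := ∀ (M : OTM (Fin 5)) (β S l : ℕ), nG M ^ S ≤ β → S + l + nQ M + 3 ≤ β →
  (∀ f : ℕ → ℕ, (∀ i < 2 + 2 * M.tapes, f i < β) → cfgN M β f < β ^ (2 + 2 * M.tapes) ∧
    ∀ i < 2 + 2 * M.tapes, dg β (cfgN M β f) i = f i) ∧
  ∀ c : M.Cfg, OkC M S l c → numC M β S c < β ^ (2 + 2 * M.tapes) ∧ dg β (numC M β S c) 0 = cQ M c.q ∧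
    dg β (numC M β S c) 1 = c.pos ∧ ∀ t : Fin M.tapes, dg β (numC M β S c) (2 + 2 * t.val) = c.hd t ∧
      dg β (numC M β S c) (3 + 2 * t.val) = ∑ j ∈ range S, cG M (c.tp t j) * nG M ^ j ∧
      dg (nG M) (dg β (numC M β S c) (3 + 2 * t.val)) (c.hd t) = cG M (c.tp t (c.hd t))

/-- SM3 (about 120 lines)
(The argument of the transition function; tables.)
Proof.  (1) `keyM` is injective (digits: `cQ < nQ`, `cS < 7` injective (`cd` is injective, `cd a < 5`), `cG < nG` injective; `Σ_t cG (g t) nG^t` determines the digits).  So `tab M f (keyM M y) = f y`.  (2) hSM2: `keyN M (lett x) β (numC ..) = keyM M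
(c.q, symAt x c.pos, fun t => c.tp t (c.hd t))`: for `pos = 0`: `lm`, `cS = 0`; `pos ≥ 1`: `symAt` looks at `x[pos - 1]?`, `lett x (pos - 1)` is `0` if there is no letter (`rm`, `6`) and `cd a + 1` for the letter `a`; the sum over `range M.tapes` is the sum
over `Fin M.tapes` (`Finset.sum_range`).
Hypotheses: hSM2. -/
def StSM3 : Prop := ∀ (M : OTM (Fin 5)), (∀ (f : Ky M → ℕ) (y : Ky M), tab M f (keyM M y) = f y) ∧
  ∀ (x : List (Fin 5)) (β S : ℕ), nG M ^ S ≤ β → S + x.length + nQ M + 3 ≤ β → ∀ c : M.Cfg, OkC M S x.length c →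
    keyN M (lett x) β (numC M β S c) = keyM M (c.q, symAt x c.pos, fun t => c.tp t (c.hd t))

/-- SM4 (about 200 lines)
(One step.)
Proof.  By hSM3 the tables give the values of `M.δ`.  Halting (`M.step x c = none` iff `M.δ .. = none` iff the table of `fH` is `1`): `stN` is the identity.  Otherwise `M.step x c = some c'` with the new fields: state, `pos' = min (mvN d pos) (|x| + 1)`
(`mvC (cM d) = mvN d`), `hd' t = mvN _ (hd t)`, `tp' t = Function.update ..`.  By hypothesis `OkC M S |x| c'`.  The new number of the tape: `sdc N (nG M) X h d = X - cG (tp t h) * nG^h + d * nG^h` (`pw N (nG M) h = nG^h` since `nG^h ≤ nG^S ≤ N`; the digit number `h` of `X` is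
`cG (tp t h)`, hSM2), which is `Σ_(j < S) cG (tp' t j) nG^j` (the terms `j ≠ h` are unchanged; `Finset.sum_update_of_mem`-like, or split off the term `j = h`).  So the digit functions of `stN` and `numC .. c'` agree for `i < 2 + 2 * tapes`
(`i = 0`, `i = 1`, `i = 2 + 2 t`, `i = 3 + 2 t`) and the two numbers are equal (`Finset.sum_congr`).
Hypotheses: hSM2 hSM3. -/
def StSM4 : Prop := ∀ (M : OTM (Fin 5)) (x : List (Fin 5)) (N β S : ℕ), nG M ^ S ≤ β → nG M ^ S ≤ N →
  S + x.length + nQ M + 3 ≤ β → ∀ c : M.Cfg, OkC M S x.length c →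
  (M.step x c = none → tab M (fH M) (keyN M (lett x) β (numC M β S c)) = 1 ∧
    stN M N x.length (lett x) β (numC M β S c) = numC M β S c) ∧
  ∀ c', M.step x c = some c' → OkC M S x.length c' → tab M (fH M) (keyN M (lett x) β (numC M β S c)) ≠ 1 ∧
    stN M N x.length (lett x) β (numC M β S c) = numC M β S c'

/-- SM5 (about 170 lines)
(The run.)  `M.Decides D s` (halts, accepts exactly `D`, heads `< s |x|`), `S = s |x|`.
Proof.  `S ≥ 1` if there is a tape (the initial head position is `0 < S`).  Reachable configurations satisfy `OkC M S |x|`: `pos ≤ |x| + 1`, heads `< S` by `Decides`, cells `≥ S` are never written (induction).  Let `c_0 = init, c_1, .., c_h` be the run up to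
the halting configuration (`M.Reaches`: extract the number of steps `h`; the successor is unique), `z_i = numC .. c_i`.  `z_0 = cQ q0` (all other digits of the initial configuration are `0`: `cG blank = 0`) and `z_i ≤ N` (`< β^(2 + 2 tapes) ≤ N`), so
`itN M N |x| (lett x) β i = z_i` for `i ≤ h` (hSM4; `min _ N` does nothing) and `= z_h` for `i ≥ h`.  `h ≤ N`: otherwise, among the `N + 1` numbers `z_0, .., z_N < β^(2 + 2 tapes) ≤ N` two are equal, `z_i = z_j`, `i < j ≤ N < h`; as `z_(n+1) = stN z_n` the sequence is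
periodic from `i` on with the period `j - i`: `z_h = z_n` for some `n` with `i ≤ n < j`; but the table of `fH` is `1` for `z_h` and not for `z_n`, `n < h` (hSM4), contradiction.  So `itN .. N = z_h`, digit 0 of it is `cQ` of the final state (hSM2), `cQ` is injective, and the
final state is accepting iff `x ∈ D`.
Hypotheses: hSM2 hSM4. -/
def StSM5 : Prop := ∀ (M : OTM (Fin 5)) (D : Set (List (Fin 5))) (s : ℕ → ℕ), M.Decides D s → ∀ (x : List (Fin 5)) (N β : ℕ),
  nG M ^ (s x.length) ≤ β → nG M ^ (s x.length) ≤ N → s x.length + x.length + nQ M + 3 ≤ β → β ^ (2 + 2 * M.tapes) ≤ N →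
  ((∃ q, cQ M q = dg β (itN M N x.length (lett x) β N) 0 ∧ M.acc q) ↔ x ∈ D)

/-- SIM (about 120 lines)
(Languages in PSPACE are E2 predicates with a large number.)
Proof.  `D ∈ PSPACE`: `M.Decides D (fun n => C * n ^ k + C)` for some `M`, `k`, `C`.  `Sm N l lt = simP M C k N l lt`; E2 by hSM1.  Correctness: hSM5 with `β = beN M C k N |x|`.  Sizes: `|x| ≤ X^q`, `X = |w| + 2 ≥ 2`; `Λ = nG * (C |x|^k + C) + |x| + nQ + 4` and
`Λ * (2 + 2 tapes) ≤ X^e` for `e ≥ e₀` (constants are `≤ 2^const ≤ X^const`; all is a polynomial in `X`), so `2^(Λ (2 + 2 tapes)) ≤ X^(X^e) = NN e w`; `beN = pw N 2 Λ = 2^Λ`, `β^(2 + 2 tapes) ≤ N`, `nG^S ≤ 2^(nG * S) ≤ β ≤ N` (`nG ≤ 2^nG`),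
`S + |x| + nQ + 3 ≤ Λ < 2^Λ` (`nG ≥ 1`).
Hypotheses: hSM1 hSM5. -/
def StSIM : Prop := ∀ D : Set (List (Fin 5)), D ∈ PSPACE (Fin 5) → ∀ q : ℕ, ∃ (e₀ : ℕ) (Sm : ℕ → ℕ → (ℕ → ℕ) → Prop),
  (∀ (N l : VF (Fin 5)) (LT : List (Fin 5) → ℕ → (ℕ → ℕ) → ℕ), E2 N → E2 l →
    E2 (fun w v => LT w (v 0) (fun i => v (i + 1))) → E2P (fun w v => Sm (N w v) (l w v) (fun i => LT w i v))) ∧
  ∀ e, e₀ ≤ e → ∀ w x : List (Fin 5), x.length ≤ (w.length + 2) ^ q → (Sm (NN e w) x.length (lett x) ↔ x ∈ D)

end Pool.Agent.Helper79.GT
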