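import Pool.Agent.Helper79.GT.Defs3
import Pool.Agent.Helper79.GS.St3
import Pool.Agent.Helper79.GS.St4
import Pool.Agent.Helper79.GS.St5

/-!
# Project GT (MP_c2d095_lc): statements, part 5: the procedure for a family `X : Sys (Fin 5)` of games with `Gd X`

All modules are variants of modules of the project GS (`Pool/Agent/Helper79/GS/St5.lean`; proofs `Pool/Agent/<Helper>/GS/M_<NAME>.lean`, to be
copied and adapted).  Dictionary: `NN 16 w`, `16` become `NN X.e w`, `X.e`; `n * n` as a bound of scores becomes `X.S w`; `3 ^ (n * n)` becomes `2 ^ X.K w`; `LL (nW w)` becomes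
`LX X w = X.K w + 1`; `mvN N (nW w) c u x` becomes `X.mv N w c u x`; `areaN N (nW w) c u` becomes `X.ar N w c u`; `H0W w u` becomes `X.H N w s u` (`s`: the player to move); `RW w`, `plW w`, `b0W N w` become `X.R w`, `X.pl w`, `X.b0 N w`;
`PhN`, `fi`, `zz`, `OkF`, .. become `PhX X`, `fiX X`, `zzX X`, `OkFX X`, ..; `EN`, `Xk`, `Gr`, `WN`, `Wst`, `ext` become `ENs`, `XkS`, `GrS`, `WNs`, `WstS`, `extS` (histories are sets of situations).
Do not use `rcases rfl` / `subst` with an equation `z = zzX ..` (keep the equation and `rw` it).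
-/

set_option autoImplicit false

namespace Pool.Agent.Helper79.GT

open Pool.Agent.Helper19.SK Pool.Agent.Helper73.DC Pool.Agent.Helper79.GS Finset
open scoped Classical

/-- BNX (about 150 lines; variant of `Pool/Agent/Helper60/GS/M_BND.lean`, if it is not there: docstring of StBND of GS)
(Sizes.)  `N = NN X.e w`, `Λ = Lam X w = 32 (K+2)^2 + R + S + 16`, `L = K + 1`, `ℓ = |w|`.
Proof.  `hsz`: `(14 Λ)^3 ≤ (ℓ+2)^e`, so `14 Λ ≤ (ℓ+2)^e`, `(2^Λ)^14 ≤ 2^((ℓ+2)^e) ≤ (ℓ+2)^((ℓ+2)^e) = N`, and `pw N 2 j = 2^j` for `j ≤ 14 Λ` (`pw cap b e = min (b^e) (cap + 1)`).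
`2 * 2^K = 2^L`.  `Qb L = 2^(8L²+9L+2)`, `Xb L = 2^((7L+7)L + 2(8L²+9L+2))` (`pow_mul`, `pow_add`), exponent `23 L² + 25 L + 4 < 32 (L+1)² ≤ Λ`, also `(7L+7)L ≤ Λ` etc.  `(2^L+1)(2^L+2) ≤ 2^(2L+3)`.
`R, S + 2 < 2^(R + S + 16)` (`n < 2^n`).
Hypotheses: none. -/
def StBNX : Prop := ∀ X : Sys (Fin 5), Gd X → ∀ w : List (Fin 5),
  (∀ j ≤ 14 * Lam X w, pw (NN X.e w) 2 j = 2 ^ j) ∧
  PhX X (NN X.e w) w = 2 ^ Lam X w ∧ PhX X (NN X.e w) w ^ 14 ≤ NN X.e w ∧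
  NbX X (NN X.e w) w = 2 ^ X.K w ∧ 2 * 2 ^ X.K w ≤ 2 ^ LX X w ∧ nmX X (NN X.e w) w = 2 ^ LX X w ∧
  SdX X (NN X.e w) w = (2 ^ LX X w + 1) * (2 ^ LX X w + 2) ∧
  QbN (NN X.e w) (LX X w) = Qb (LX X w) ∧ XbN (NN X.e w) (LX X w) = Xb (LX X w) ∧
  2 ^ X.K w + 2 < PhX X (NN X.e w) w ∧ (2 ^ LX X w + 1) * (2 ^ LX X w + 2) < PhX X (NN X.e w) w ∧
  Xb (LX X w) < PhX X (NN X.e w) w ∧ Qb (LX X w) < PhX X (NN X.e w) w ∧ X.R w < PhX X (NN X.e w) w ∧
  X.S w + 2 < PhX X (NN X.e w) w ∧ LX X w + 2 < PhX X (NN X.e w) w ∧ 16 ≤ PhX X (NN X.e w) w ∧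
  32 * (LX X w + 1) ^ 2 ≤ Lam X w

/-- FLX (about 150 lines; variant of `Pool/Agent/Helper81/GS/M_FLD.lean`)
(Fields.)
Proof.  As FLD: by hBNX and `OkFX` all 13 fields are `< PhX`, `zzX < PhX ^ 13 ≤ NN X.e w`.  `ValX X w 0 = 0`, `rkX X w 0 = 0`.
Hypotheses: hBNX. -/
def StFLX : Prop := ∀ X : Sys (Fin 5), Gd X → ∀ w : List (Fin 5), ValX X w 0 = 0 ∧ rkX X w 0 = 0 ∧ OkX X w 0 ∧
  ∀ T r c a b u k m fl d s t x, OkFX X w T r c a b u k m fl d s t x →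
    (fiX X (NN X.e w) w (zzX X (NN X.e w) w T r c a b u k m fl d s t x) 0 = T ∧
    fiX X (NN X.e w) w (zzX X (NN X.e w) w T r c a b u k m fl d s t x) 1 = r ∧
    fiX X (NN X.e w) w (zzX X (NN X.e w) w T r c a b u k m fl d s t x) 2 = c ∧
    fiX X (NN X.e w) w (zzX X (NN X.e w) w T r c a b u k m fl d s t x) 3 = a ∧
    fiX X (NN X.e w) w (zzX X (NN X.e w) w T r c a b u k m fl d s t x) 4 = b ∧
    fiX X (NN X.e w) w (zzX X (NN X.e w) w T r c a b u k m fl d s t x) 5 = u ∧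
    fiX X (NN X.e w) w (zzX X (NN X.e w) w T r c a b u k m fl d s t x) 6 = k ∧
    fiX X (NN X.e w) w (zzX X (NN X.e w) w T r c a b u k m fl d s t x) 7 = m ∧
    fiX X (NN X.e w) w (zzX X (NN X.e w) w T r c a b u k m fl d s t x) 8 = fl ∧
    fiX X (NN X.e w) w (zzX X (NN X.e w) w T r c a b u k m fl d s t x) 9 = d ∧
    fiX X (NN X.e w) w (zzX X (NN X.e w) w T r c a b u k m fl d s t x) 10 = s ∧
    fiX X (NN X.e w) w (zzX X (NN X.e w) w T r c a b u k m fl d s t x) 11 = t ∧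
    fiX X (NN X.e w) w (zzX X (NN X.e w) w T r c a b u k m fl d s t x) 12 = x) ∧
    zzX X (NN X.e w) w T r c a b u k m fl d s t x < NN X.e w ∧
    ValX X w (zzX X (NN X.e w) w T r c a b u k m fl d s t x) = ValFX X w T r c a b u k m fl d s t x ∧
    rkX X w (zzX X (NN X.e w) w T r c a b u k m fl d s t x) = rkFX X w T r k d ∧
    OkX X w (zzX X (NN X.e w) w T r c a b u k m fl d s t x)

/-- RKX (about 60 lines; variant of `Pool/Agent/Helper22/GS/M_RKB.lean`)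
(Ranks.)
Proof.  Cases of `OkX`; `z = 0`: rank 0 and `0 < NN`.  Otherwise hFLX.  With `Λ = Lam X w`: `R ≤ Λ`, `S + 2 ≤ Λ`, `L + 6 ≤ Λ`, so `A = (S+2)(L+6) + 2 ≤ Λ² + 2`, the second summand of `rkFX` is at most `A + 10` (`k ≤ S + 1`, `d ≤ L + 1`),
the rank is `≤ Λ (Λ² + 2) + Λ² + 12 < (14 Λ)^3 ≤ (ℓ+2)^e` (`hsz`; `Λ ≥ 16`).
Hypotheses: hBNX hFLX. -/
def StRKX : Prop := ∀ X : Sys (Fin 5), Gd X → ∀ (w : List (Fin 5)) (z : ℕ), OkX X w z →
  z < NN X.e w ∧ rkX X w z < (w.length + 2) ^ X.e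

/-- WTX (about 90 lines; variant of `Pool/Agent/Helper33/GS/M_WTN.lean`)
(Weights.)  `N = NN X.e w`, `L = LX X w`.
Proof.  As WTN (all exponents are at most `14 Λ`, by `32 (L+1)² ≤ Λ`: last clause of hBNX).
Hypotheses: hBNX. -/
def StWTX : Prop := ∀ X : Sys (Fin 5), Gd X → ∀ (w : List (Fin 5)) (x i j : ℕ),
  wtN (NN X.e w) (LX X w) x i j = wt (LX X w) (xt (LX X w) x) i j ∧
  xqN (NN X.e w) (LX X w) x + 1 = xq (LX X w) x ∧ xxN (NN X.e w) (LX X w) x = xx (LX X w) x ∧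
  evN (NN X.e w) (LX X w) x i j =
    xx (LX X w) x ^ wt (LX X w) (xt (LX X w) x) i j % xq (LX X w) x ∧
  1 ≤ xq (LX X w) x ∧ xq (LX X w) x ≤ Qb (LX X w)

/-- ARX (about 110 lines; variant of `Pool/Agent/Helper38/GS/M_ARN.lean`)
(The arena and the functions of numbers.)  `c ≤ 1`, `p ≤ 1`.
Proof.  As ARN; `bn (cB c) = c`.  `idX ≤ S/4 + 1 ≤ S + 1` by `har`.  `X.mv` contains `u, x < 2^K` by `hmv`.  Histories: `(cB p, x) ∈ HX X w` is `X.H (NN X.e w) w (bn (cB p)) x`; `(cB p, x) ∈ VX X w c a b`: `cB p = !(cB c)` iff `p = 1 - c`, `cB p = cB c` iff `p = c`.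
Hypotheses: none. -/
def StARX : Prop := ∀ X : Sys (Fin 5), Gd X → ∀ (w : List (Fin 5)) (c u x : ℕ), c ≤ 1 →
  (!(cB c)) = cB (1 - c) ∧ ((AX X w).mv (cB c) u x ↔ X.mv (NN X.e w) w c u x) ∧
  ((AX X w).mv (!(cB c)) u x ↔ X.mv (NN X.e w) w (1 - c) u x) ∧
  (rv (AX X w) (cB c) u x ↔ rvX X (NN X.e w) w c u x) ∧ (ahead (AX X w) (cB c) u ↔ ahX X (NN X.e w) w c u) ∧
  mg (AX X w) (cB c) u / 4 + 1 = idX X (NN X.e w) w c u ∧ idX X (NN X.e w) w c u ≤ X.S w + 1 ∧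
  (X.mv (NN X.e w) w c u x → u < 2 ^ X.K w ∧ x < 2 ^ X.K w) ∧
  ((AX X w).s x = (AX X w).s u ↔ X.ar (NN X.e w) w 1 x + X.ar (NN X.e w) w 0 u =
    X.ar (NN X.e w) w 1 u + X.ar (NN X.e w) w 0 x) ∧
  (∀ p ≤ 1, ((cB p, x) ∈ HX X w ↔ X.H (NN X.e w) w p x) ∧
    ∀ a b, ((cB p, x) ∈ VX X w c a b ↔ VNX X (NN X.e w) w c a b p x))

/-- TX1 (about 200 lines; variant of `Pool/Agent/Helper76/GS/M_TG1.lean`)
(Calls of the kind 1: `WNs`.)
Proof.  As TG1: `WNs A sk H₀ r = WstS A sk H₀ (ENs A sk H₀ r)` (cases on `r`, `rfl`).  The calls of the kind 3 have the player `1 - c` (or `c` if he is behind), `a = u`, `b = u` or `b = j - 2`: their history `VX X w (1 - c) u b` is `Vis X.sk (HX X w) (!cB c) u b`, as in `WstS`;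
`c1X` says `rv`, `(!c, x) ∉ HX`, `x ≠ u`.
Hypotheses: hBNX hFLX hARX. -/
def StTX1 : Prop := ∀ X : Sys (Fin 5), Gd X → ∀ (w : List (Fin 5)) (r c a b u k m fl d s t x : ℕ),
  OkFX X w 1 r c a b u k m fl d s t x → TagX X w (zzX X (NN X.e w) w 1 r c a b u k m fl d s t x)

/-- TX2 (about 130 lines; variant of `Pool/Agent/Helper41/GS/M_TG2.lean`)
(Calls of the kind 2: `ENs`.)
Proof.  As TG2: `ENs A sk H₀ (r+1) = extS A H₀ (WNs A sk H₀ r)`; `c2X` says: placement, not reversible, `(!c, x) ∉ HX` (hARX with `p = 1 - c`).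
Hypotheses: hBNX hFLX hARX. -/
def StTX2 : Prop := ∀ X : Sys (Fin 5), Gd X → ∀ (w : List (Fin 5)) (r c a b u k m fl d s t x : ℕ),
  OkFX X w 2 r c a b u k m fl d s t x → TagX X w (zzX X (NN X.e w) w 2 r c a b u k m fl d s t x)

/-- TX3 (about 180 lines; variant of `Pool/Agent/Helper54/GS/M_TG3.lean`)
(Calls of the kind 3: `XkS`.)
Proof.  As TG3 (the graph `GX` is supported on numbers `< 2^K` because it contains `rv`, hARX).
Hypotheses: hBNX hFLX hARX. -/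
def StTX3 : Prop := ∀ X : Sys (Fin 5), Gd X → ∀ (w : List (Fin 5)) (r c a b u k m fl d s t x : ℕ),
  OkFX X w 3 r c a b u k m fl d s t x → TagX X w (zzX X (NN X.e w) w 3 r c a b u k m fl d s t x)

/-- TX4 (about 130 lines; variant of `Pool/Agent/Helper57/GS/M_TG4.lean`)
(Calls of the kind 4: `Mat`.)
Proof.  As TG4: hCRI (of GS) with `L = LX X w`, `Nb = 2^K`.
Hypotheses: hBNX hFLX hARX hCRI. -/
def StTX4 : Prop := ∀ X : Sys (Fin 5), Gd X → ∀ (w : List (Fin 5)) (r c a b u k m fl d s t x : ℕ),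
  OkFX X w 4 r c a b u k m fl d s t x → TagX X w (zzX X (NN X.e w) w 4 r c a b u k m fl d s t x)

/-- TX5 (about 220 lines; variant of `Pool/Agent/Helper19/GS/M_TG5.lean`)
(Calls of the kind 5: powers of the transfer matrix.)
Proof.  As TG5.
Hypotheses: hBNX hFLX hARX hWTX hTRC. -/
def StTX5 : Prop := ∀ X : Sys (Fin 5), Gd X → ∀ (w : List (Fin 5)) (r c a b u k m fl d s t x : ℕ),
  OkFX X w 5 r c a b u k m fl d s t x → TagX X w (zzX X (NN X.e w) w 5 r c a b u k m fl d s t x)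

/-- TX6 (about 150 lines; variant of `Pool/Agent/Helper2/GS/M_TG6.lean`)
(Calls of the kind 6: edges.)
Proof.  As TG6: `GrS A EX V (cB c) Y u s t` is `(s = u ∨ ((cB c, s) ∉ V ∧ ¬ EX (cB c) s)) ∧ A.s s = A.s u ∧ rv A (cB c) s t ∧ (!cB c, t) ∉ V ∧ ¬ EX (!cB c) t ∧ (¬ ahead A (cB c) t → Y t)`; `ini6X` has `VNX` with the players `1 - c` for `t` and `c` for `s` (hARX, last clause).
Hypotheses: hBNX hFLX hARX. -/
def StTX6 : Prop := ∀ X : Sys (Fin 5), Gd X → ∀ (w : List (Fin 5)) (r c a b u k m fl d s t x : ℕ),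
  OkFX X w 6 r c a b u k m fl d s t x → TagX X w (zzX X (NN X.e w) w 6 r c a b u k m fl d s t x)

/-- TX7 (about 70 lines; variant of `Pool/Agent/Helper8/GS/M_TG7.lean`)
(Calls of the kinds 7 and 0.)
Proof.  As TG7.
Hypotheses: hBNX hFLX. -/
def StTX7 : Prop := ∀ X : Sys (Fin 5), Gd X → (∀ (w : List (Fin 5)) (r c a b u k m fl d s t x : ℕ),
  OkFX X w 7 r c a b u k m fl d s t x → TagX X w (zzX X (NN X.e w) w 7 r c a b u k m fl d s t x)) ∧
  ∀ w : List (Fin 5), TagX X w 0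

/-! ## The functions are E2.  All tools: `Pool/Agent/Helper79/GS/Lib.lean`. -/

/-- EFX (about 170 lines; variant of `Pool/Agent/Helper28/GS/M_EF.lean`)
(Fields.)
Proof.  As EF, with `Gd` (fields `eK`, `eS`, `eR`, `emv`, `ear`, `eH`) instead of hEW, hEB2; hEA (of GS) is available.  `ahX`, `idX`, `rvX`, `VNX`: `e_ite`, `e_lt`, `e_sub`, `e_div`, `e_and`, `e_or`, `e_imp`, `e_eq` (`X.sk = true` is a constant proposition: cases on
`X.sk`, `e_true`, `e_false`).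
Hypotheses: hEA (of GS). -/
def StEFX : Prop := ∀ X : Sys (Fin 5), Gd X →
  E2 (α := Fin 5) (fun w _ => LX X w) ∧
  (∀ N : VF (Fin 5), E2 N → E2 (fun w v => PhX X (N w v) w) ∧ E2 (fun w v => NbX X (N w v) w) ∧
    E2 (fun w v => nmX X (N w v) w) ∧ E2 (fun w v => SdX X (N w v) w)) ∧
  (∀ N T r c a b u k m fl d s t x : VF (Fin 5), E2 N → E2 T → E2 r → E2 c → E2 a → E2 b → E2 u → E2 k → E2 m → E2 fl →
    E2 d → E2 s → E2 t → E2 x → E2 (fun w v => zzX X (N w v) w (T w v) (r w v) (c w v) (a w v) (b w v) (u w v) (k w v) (m w v)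
      (fl w v) (d w v) (s w v) (t w v) (x w v))) ∧
  (∀ N Z I : VF (Fin 5), E2 N → E2 Z → E2 I → E2 (fun w v => fiX X (N w v) w (Z w v) (I w v))) ∧
  (∀ N C U Y : VF (Fin 5), E2 N → E2 C → E2 U → E2 Y →
    E2P (fun w v => ahX X (N w v) w (C w v) (U w v)) ∧ E2 (fun w v => idX X (N w v) w (C w v) (U w v)) ∧
    E2P (fun w v => rvX X (N w v) w (C w v) (U w v) (Y w v)) ∧
    E2P (fun w v => c1X X (N w v) w (C w v) (U w v) (Y w v)) ∧ E2P (fun w v => c2X X (N w v) w (C w v) (U w v) (Y w v))) ∧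
  (∀ N C A B P Y : VF (Fin 5), E2 N → E2 C → E2 A → E2 B → E2 P → E2 Y →
    E2P (fun w v => VNX X (N w v) w (C w v) (A w v) (B w v) (P w v) (Y w v))) ∧
  (∀ N m s t x y : VF (Fin 5), E2 N → E2 m → E2 s → E2 t → E2 x → E2 y →
    E2 (fun w v => entX X (N w v) w (m w v) (s w v) (t w v) (x w v) (y w v))) ∧
  (∀ p : List (Fin 5) → (ℕ → ℕ) → Prop, E2P p → E2 (fun w v => b01 (p w v)))

/-- E1X (about 150 lines; variant of `Pool/Agent/Helper42/GS/M_EP1.lean`)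
(The functions of the procedure, first part.)
Proof.  As EP1.
Hypotheses: hEA (of GS) hEFX. -/
def StE1X : Prop := ∀ X : Sys (Fin 5), Gd X → ∀ N Z A : VF (Fin 5), E2 N → E2 Z → E2 A →
  E2 (fun w v => IniX X (N w v) w (Z w v)) ∧ E2 (fun w v => LenX X (N w v) w (Z w v)) ∧
  E2 (fun w v => OutX X (N w v) w (Z w v) (A w v)) ∧ E2 (fun w v => Z0X X (N w v) w)

/-- E2X (about 170 lines; variant of `Pool/Agent/Helper51/GS/M_EP2.lean`)
(The calls.)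
Proof.  As EP2.
Hypotheses: hEA (of GS) hEFX. -/
def StE2X : Prop := ∀ X : Sys (Fin 5), Gd X → ∀ N Z J : VF (Fin 5), E2 N → E2 Z → E2 J →
  E2 (fun w v => DelX X (N w v) w (Z w v) (J w v))

/-- E3X (about 170 lines; variant of `Pool/Agent/Helper89/GS/M_EP3.lean`)
(The steps.)
Proof.  As EP3.
Hypotheses: hEA (of GS) hEFX. -/
def StE3X : Prop := ∀ X : Sys (Fin 5), Gd X → ∀ N Z J A Y : VF (Fin 5), E2 N → E2 Z → E2 J → E2 A → E2 Y →
  E2 (fun w v => StpX X (N w v) w (Z w v) (J w v) (A w v) (Y w v))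

/-- PSX (about 120 lines; variant of `Pool/Agent/Helper98/GS/M_PSP.lean`)
(The language is in PSPACE.)
Proof.  As PSP: hREC (of GS) with `c = X.e`; the start: `OkFX X w 7 (X.R w) (X.pl w) 0 0 (X.b0 (NN X.e w) w) 0 ..` by `hb`, `hpl`.
Hypotheses: hREC (of GS) hBNX hFLX hRKX hTX1 hTX2 hTX3 hTX4 hTX5 hTX6 hTX7 hE1X hE2X hE3X. -/
def StPSX : Prop := ∀ X : Sys (Fin 5), Gd X → LangX X ∈ PSPACE (Fin 5)

end Pool.Agent.Helper79.GT
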