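import Pool.Agent.Helper79.GT.Defs5
import Pool.Agent.Helper79.GT.St1
import Pool.Agent.Helper79.GT.St2
import Pool.Agent.Helper79.GT.St3
import Pool.Agent.Helper79.GT.St4
import Pool.Agent.Helper79.GT.St5
import Pool.Agent.Helper79.GS.St6

/-!
# Project GT (MP_c2d095_lc): statements, part 6: the family of games of the theorem, the theorem

`Sm : Bool → ℕ → ℕ → (ℕ → ℕ) → Prop`: E2 predicates which decide the declarations.
-/

set_option autoImplicit false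

namespace Pool.Agent.Helper79.GT

open Pool.Agent.Helper19.SK Pool.Agent.Helper73.DC Pool.Agent.Helper79.GS Finset
open scoped Classical

/-- `Sm` is E2 (for all E2 numbers and E2 functions of letters). -/
def SmE (Sm : Bool → ℕ → ℕ → (ℕ → ℕ) → Prop) : Prop :=
  ∀ (i : Bool) (N l : VF (Fin 5)) (LT : List (Fin 5) → ℕ → (ℕ → ℕ) → ℕ), E2 N → E2 l →
    E2 (fun w v => LT w (v 0) (fun j => v (j + 1))) → E2P (fun w v => Sm i (N w v) (l w v) (fun j => LT w j v))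

/-- `Sm` decides `D` for the words of the length `≤ (|w| + 2)^3`. -/
def SmC (Sm : Bool → ℕ → ℕ → (ℕ → ℕ) → Prop) (D : Bool → Set (List (Fin 5))) (e : ℕ) : Prop :=
  ∀ (i : Bool) (w x : List (Fin 5)), x.length ≤ (w.length + 2) ^ 3 → (Sm i (NN e w) x.length (lett x) ↔ x ∈ D i)

/-! ## The functions are E2.  All tools: `Pool/Agent/Helper79/GS/Lib.lean`. -/

/-- EVW (about 130 lines; variant of `Pool/Agent/Helper99/GS/M_EW.lean`)
(Functions of the word.)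
Proof.  `e_bmin`, `e_and`, `e_lt`, `e_eq`, `e_lett`, `e_len`, `e_sub`, `e_mul`, `e_ite`, `e_sum`, `e_pw`, `e_all`, `e_ex`, `e_mod`.  For `HV`: `sk = true` is a constant proposition (cases on `sk`).
Hypotheses: none. -/
def StEVW : Prop :=
  E2 (α := Fin 5) (fun w _ => nV w) ∧ E2 (α := Fin 5) (fun w _ => q2 w) ∧ E2 (α := Fin 5) (fun w _ => mV w) ∧
  E2 (α := Fin 5) (fun w _ => kbV w) ∧ E2 (α := Fin 5) (fun w _ => kwV w) ∧ E2 (α := Fin 5) (fun w _ => R0 w) ∧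
  E2 (α := Fin 5) (fun w _ => BB w) ∧ E2 (α := Fin 5) (fun w _ => MM w) ∧ E2 (α := Fin 5) (fun w _ => sdV w 0) ∧
  (∀ N : VF (Fin 5), E2 N → E2 (fun w v => PP (N w v) w) ∧ E2 (fun w v => TT (N w v) w) ∧
    E2 (fun w v => b0V (N w v) w)) ∧
  (∀ (sk : Bool) (N S U : VF (Fin 5)), E2 N → E2 S → E2 U → E2P (fun w v => HV sk (N w v) w (S w v) (U w v)))

/-- EVL (about 90 lines)
(Letters of the word of a placement.)
Proof.  `e_ite`, `e_lett`, `e_dg`, `e_sub`, `e_lt`, `e_eq`, hEVW.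
Hypotheses: hEVW. -/
def StEVL : Prop :=
  (∀ U : VF (Fin 5), E2 U → E2 (fun w v => lcN (U w v)) ∧ E2 (fun w v => o1 (U w v))) ∧
  ∀ C B B' I : VF (Fin 5), E2 C → E2 B → E2 B' → E2 I → E2 (fun w v => vlt w (C w v) (B w v) (B' w v) (I w v))

/-- EVB (about 130 lines)
(Placements in the window.)
Proof.  `numN`: `e_sum`, `e_ite`, `e_dg`, hEB1 (`colN`).  `dcN`: `SmE` with `LT w i v = vlt w (C w v) (B w v) (B' w v) i` (hEVL with shifted functions), `l w v = |w| + 1 + 2 n²`.  `unN`: hEB2 (`mvN`).  `mvV`: `e_or`, `e_and`, `e_ex` with the bound `PP`, `e_div`, `e_mod`,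
hEVW.
Hypotheses: hEB1 hEB2 (of GS) hEVW hEVL. -/
def StEVB : Prop := ∀ Sm, SmE Sm →
  (∀ n C U : VF (Fin 5), E2 n → E2 C → E2 U → E2 (fun w v => numN (n w v) (C w v) (U w v))) ∧
  (∀ (i : Bool) (N C B B' : VF (Fin 5)), E2 N → E2 C → E2 B → E2 B' →
    E2P (fun w v => dcN Sm (N w v) w i (C w v) (B w v) (B' w v))) ∧
  (∀ N C U Y : VF (Fin 5), E2 N → E2 C → E2 U → E2 Y →
    E2P (fun w v => unN Sm (N w v) w (C w v) (U w v) (Y w v)) ∧
    E2P (fun w v => mvV Sm (N w v) w (C w v) (U w v) (Y w v)))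

/-- EVS (about 100 lines)
(Scores.)
Proof.  `terN`: `e_sum`, hEB1 (`tchN`, `colN`).  `xN`, `yN`: cases on `tc`; hEB2 (`areaN`), hEVW.  `arV`: `e_ite`, `e_div`.
Hypotheses: hEB1 hEB2 (of GS) hEVW. -/
def StEVS : Prop := (∀ N n C U : VF (Fin 5), E2 N → E2 n → E2 C → E2 U → E2 (fun w v => terN (N w v) (n w v) (C w v) (U w v))) ∧
  ∀ (tc : Bool) (N C U : VF (Fin 5)), E2 N → E2 C → E2 U → E2 (fun w v => arV tc (N w v) w (C w v) (U w v))

/-! ## Sizes -/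

/-- SZV (about 120 lines)
(Sizes.)
Proof.  `n = nV w ≤ |w|` (`tL7`: `bmin b p ≤ b`), `m, kb, kw ≤ |w|`.  Let `Y = |w| + 2 ≥ 2`.  `n² ≤ Y²`, `n² + 1 ≤ Y²`, `R0 ≤ Y * (2 Y⁴ + 1) ≤ Y^7`, `BB ≤ (2 Y^7 + 1) Y² ≤ Y^11`, `MM ≤ Y^13`, `K + 2 ≤ Y^15`, `S ≤ Y^19`, `Lam ≤ 32 Y^30 + Y^8 + Y^19 + 16 ≤ Y^38`, `14 Lam ≤ Y^42`,
`(14 Lam)^3 ≤ Y^126` (any exponents of this kind are fine); `e₁` = this exponent (at least; `Y ≥ 1`: monotone in the exponent).  `3^(n²) ≤ 2^(2 n²) ≤ 2^(14 Lam) ≤ 2^(Y^e) ≤ Y^(Y^e) = NN e w`, so `pw (NN e w) 3 p = 3^p` for `p ≤ n²`.  `|w| + 1 + 2 n² ≤ Y^3`.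
Hypotheses: none. -/
def StSZV : Prop := ∃ e₁ : ℕ, ∀ e, e₁ ≤ e → ∀ (sk tc : Bool) (Sm : Bool → ℕ → ℕ → (ℕ → ℕ) → Prop) (w : List (Fin 5)),
  (14 * Lam (goX sk tc e Sm) w) ^ 3 ≤ (w.length + 2) ^ e ∧
  (∀ p ≤ nV w * nV w, pw (NN e w) 3 p = 3 ^ p) ∧ PP (NN e w) w = 3 ^ (nV w * nV w) ∧
  3 ^ (nV w * nV w) ≤ NN e w ∧ w.length + 1 + 2 * (nV w * nV w) ≤ (w.length + 2) ^ 3 ∧ nV w ≤ w.length

/-- GDV (about 150 lines)
(The conditions for the procedure.)
Proof.  E2 fields: hEVW, hEVB, hEVS.  `hmv`: `TT + 1 < 2^K`: `PP ≤ 3^(n²) ≤ 4^(n²) = 2^(2 n²)` (`pw ≤` power), `MM < 2^MM`, `K = 2 n² + MM + 2`; `o1 c ≤ 1`.  `har`: `areaN`, `terN ≤ n²` (sums of `n²` terms `≤ 1`), `u / PP < MM` for `u < TT = PP * MM`, `g = 3` or `4`.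
`hb`: `Σ_(p < n²) cntV w 0 p * 3^p < 3^(n²)` (`cntV ≤ 2`), `PP = 3^(n²)` (SZV), `BB < MM`.  `hpl`: `sdV ≤ 1`.  `hsz`: SZV.
Hypotheses: hEVW hEVB hEVS hSZV. -/
def StGDV : Prop := ∃ e₁ : ℕ, ∀ e, e₁ ≤ e → ∀ (sk tc : Bool) (Sm : Bool → ℕ → ℕ → (ℕ → ℕ) → Prop), SmE Sm →
  Gd (goX sk tc e Sm)

/-! ## Instances and boards -/

/-- ENV (about 220 lines; compare `Pool/Agent/Helper64/GS/M_ENC.lean`)
(Reading the word of an instance.)  `w = inst n m kb kw c P H`, `h = H.length`, `K = n² + 1`.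
Proof.  Letters of `w`: numbers `0 .. n - 1`: 3; `n`: 4; `n + 1 + j K + p` (`j ≤ h`, `p < K`): the letter number `p` of the word of the situation number `j` (`(c, P)` for `j = 0`, the `j`-th situation of `H` for `j ≥ 1`): the content of the cell `p` for `p < n²` and
the player for `p = n²`, one of `0, 1, 2`; `n + 1 + (h+1) K`: 4; `m` letters 3; 4; `kb` letters 3; 4; `kw` letters 3.  `lett w i = cd a + 1` iff the letter number `i` is `a`.  `tL7` (specification of `bmin`): `nV w = n`, `q2 w = n + 1 + (h+1) K`, `q3 w = q2 w + m + 1`,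
`q4 w = q3 w + kb + 1`, `|w| = q4 w + kw + 1`.  `sdV w j` is the player of the situation `j`, `cntV w j p` its content (`dgt`).  `b0V`: `Σ_p dgt (P (cell p)) * 3^p = codeB P` (`pw N 3 p = 3^p`).  `HV`: `u = codeB Q + 3^(n²) * i < TT`, `u % PP = codeB Q`; some `j` with `1 ≤ j`, `j ≤ h`
(the inequality `n + 1 + (j+1) K ≤ q2 w`), whose board has the digits of `codeB Q`, so it is `Q` (hCOD), and (situational) the player `s`; for `sk = false` any player `s` or `!s`.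
Hypotheses: hCOD (of GS). -/
def StENV : Prop := ∀ (n m kb kw : ℕ) (c : Bool) (P : Pos (Fin n × Fin n)) (H : List (Bool × Pos (Fin n × Fin n))), 1 ≤ n →
  nV (inst n m kb kw c P H) = n ∧ mV (inst n m kb kw c P H) = m ∧ kbV (inst n m kb kw c P H) = kb ∧
  kwV (inst n m kb kw c P H) = kw ∧ sdV (inst n m kb kw c P H) 0 = bn c ∧
  ∀ N, 3 ^ (n * n) ≤ N → (b0V N (inst n m kb kw c P H) = codeB P + 3 ^ (n * n) * BB (inst n m kb kw c P H)) ∧
    ∀ (sk s : Bool) (Q : Pos (Fin n × Fin n)) (i : ℕ), i < MM (inst n m kb kw c P H) →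
      (HV sk N (inst n m kb kw c P H) (bn s) (codeB Q + 3 ^ (n * n) * i) ↔
        (s, Q) ∈ H ∨ (sk = false ∧ (!s, Q) ∈ H))

/-- NUV (about 80 lines; compare `Pool/Agent/Helper87/GS/M_ARE.lean`)
(Numbers of stones and territory.)
Proof.  As ARE: the sums count the cells `v < n²` with a property; hCOD (digits), hTCH (touching).
Hypotheses: hCOD hTCH (of GS). -/
def StNUV : Prop := ∀ (N n : ℕ), 3 ^ (n * n) ≤ N → ∀ (c : Bool) (P : Pos (Fin n × Fin n)),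
  numN n (bn c) (codeB P) = num P c ∧ terN N n (bn c) (codeB P) = terr (grid n) P c

/-- VLV (about 90 lines)
(The word of a placement.)
Proof.  `bword P` has the length `n²` and its letter number `p` is `ltr (P (cell p))`; `lcN (dg 3 (codeB P) p) = cd (ltr (P (cell p))) + 1` (hCOD; three cases).  `List.getElem?_append`, `List.getElem?_cons`, `List.getElem_ofFn`; `bn c = 1` iff `c = true`.
Hypotheses: hCOD (of GS). -/
def StVLV : Prop := ∀ (n : ℕ) (w : List (Fin 5)), nV w = n → ∀ (c : Bool) (P Q : Pos (Fin n × Fin n)),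
  (w ++ ltr (some c) :: (bword P ++ bword Q)).length = w.length + 1 + 2 * (n * n) ∧
  vlt w (bn c) (codeB P) (codeB Q) = lett (w ++ ltr (some c) :: (bword P ++ bword Q))

/-- CRM (about 170 lines)
(Placements in the window as numbers.)  `w` with `nV w = n`, `N = NN e w`, `M = 2 * BB w + 1 = MM w`.
Proof.  `PP N w = 3^(n²)` (first hypothesis), `TT = 3^(n²) * M`; for `x = inl (P, i)`: `wcode M x < TT`, `wcode % PP = codeB P < PP` (hCOD), `wcode / PP = i`; for `x = inr c'`: `wcode = TT + bn c' ≥ TT`, `o1 (bn c) = bn c`.  Injective: hCOD.  `mvN N n (bn c) (codeB P) (codeB Q) ↔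
(goG (grid n) tc).mv c P Q` (hPLY), `1 - bn c = bn (!c)`; `dcN Sm N w i (bn c) (codeB P) (codeB Q) ↔ dcl D w i c P Q`: hVLV and `SmC`; so `unN ↔ und`.  The condition on the differences: `numN = num` (hNUV), `A.cp = capd c P Q`; `omega` after `push_cast` for `c = true` and `c = false`.
Placement to `inr`: `y < PP` is `codeB Q` (hCOD).  Support: a number `< TT` is `codeB P + 3^(n²) * i`, `i < M`; `TT + o1 c` is `wcode (inr c')`.
Hypotheses: hCOD hPLY (of GS) hNUV hVLV. -/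
def StCRM : Prop := ∀ (sk tc : Bool) (e : ℕ) (Sm : Bool → ℕ → ℕ → (ℕ → ℕ) → Prop) (D : Bool → Set (List (Fin 5)))
  (n : ℕ) (w : List (Fin 5)) (d₀ : ℤ), 1 ≤ n → nV w = n → 3 ^ (n * n) ≤ NN e w → PP (NN e w) w = 3 ^ (n * n) →
  w.length + 1 + 2 * (n * n) ≤ (w.length + 2) ^ 3 → SmC Sm D e →
  Function.Injective (wcode (n := n) (2 * BB w + 1)) ∧
  (∀ c x y, (wA (goG (grid n) tc) (dcl D w) (gV tc) (2 * BB w + 1) (BB w) d₀).mv c x y ↔
    (AX (goX sk tc e Sm) w).mv c (wcode (2 * BB w + 1) x) (wcode (2 * BB w + 1) y)) ∧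
  ∀ c x' y', (AX (goX sk tc e Sm) w).mv c x' y' → (∃ x, wcode (n := n) (2 * BB w + 1) x = x') ∧
    ∃ y, wcode (n := n) (2 * BB w + 1) y = y'

/-- CRS (about 100 lines)
(Scores as numbers.)  `w` with `nV w = n`, `N = NN e w`.
Proof.  `x = inl (P, i)`: `u = wcode .. x < TT`, `u % PP = codeB P`, `u / PP = i`; `xN - yN = A.sc P (d₀ - BB + i)` as integers (hNUV, hARE; `d₀ = kbV w - kwV w`); `4 * ((X - Y + g - 1) / g) = -4 * (-(X - Y) / g)` for `Y < X` and `- 4 * ((Y - X) / g) = -4 * (-(X - Y) / g)` for `X ≤ Y` (integer division rounds down;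
`g = 3, 4`: `omega`).  `x = inr c`: `u = TT + bn c`: `4` or `0`.
Hypotheses: hCOD hARE (of GS) hNUV. -/
def StCRS : Prop := ∀ (sk tc : Bool) (e : ℕ) (Sm : Bool → ℕ → ℕ → (ℕ → ℕ) → Prop) (D : Bool → Set (List (Fin 5)))
  (n : ℕ) (w : List (Fin 5)), 1 ≤ n → nV w = n → 3 ^ (n * n) ≤ NN e w → PP (NN e w) w = 3 ^ (n * n) →
  ∀ x, (wA (goG (grid n) tc) (dcl D w) (gV tc) (2 * BB w + 1) (BB w) ((kbV w : ℤ) - kwV w)).s x =
    (AX (goX sk tc e Sm) w).s (wcode (n := n) (2 * BB w + 1) x)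

/-- FNV (about 170 lines)
(The language decides the game.)
Proof.  `w = inst n m kb kw c P H`, `X = goX sk tc e Sm`, `A = goG (grid n) tc`, `D' = dcl D w`, `B = BB w`, `M = 2 B + 1`, `W = wA A D' (gV tc) M B (kb - kw)`, `R = R0 w = (m+1) (2 (n²+1)² + 1)`, `Nat.card (Fin n × Fin n) = n * n`.  hGKL: `KoLaw A pt (gV tc) (n * n)`, hONM: `Bd (uA A D' pt) R P`,
`(2 R + 1) * (n * n) = B`.  hSML: `BWg .. ↔` the game `W` from `inl (P, B)` with the history `insert (c, inl (P, B)) (wH sk M {x | x ∈ H})`.  hVAL for `W` (`Sc` by hWSC, `Bd W (R+1)` by hWBD, `wH false` is symmetric) : `↔ WNs W sk (wH ..) (R+1) c (inl (P, B))`.  hTRS with `f = wcode M` (hCRM, hCRS with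
`kbV w = kb`, `kwV w = kw` (hENV); histories: hENV for `inl`, and for `inr c'` both sides are false (`wcode ≥ TT`)): `↔ WNs (AX X w) sk (HX X w) (R+1) c (wcode M (inl (P, B)))`, and `wcode M (inl (P, B)) = X.b0 (NN e w) w` (hENV), `X.R w = R + 1`, `X.pl w = bn c`.  Two cases for `c`: definition of `LangX`.
Hypotheses: hGKL hONM hSML hVAL hWSC hWBD hTRS hENV hCRM hCRS. -/
def StFNV : Prop := ∀ (sk tc : Bool) (e : ℕ) (Sm : Bool → ℕ → ℕ → (ℕ → ℕ) → Prop) (D : Bool → Set (List (Fin 5))),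
  SmC Sm D e → ∀ (n m kb kw : ℕ) (c : Bool) (P : Pos (Fin n × Fin n)) (H : List (Bool × Pos (Fin n × Fin n))),
  1 ≤ n → 3 ^ (n * n) ≤ NN e (inst n m kb kw c P H) → PP (NN e (inst n m kb kw c P H)) (inst n m kb kw c P H) = 3 ^ (n * n) →
  (inst n m kb kw c P H).length + 1 + 2 * (n * n) ≤ ((inst n m kb kw c P H).length + 2) ^ 3 →
  Few (und (goG (grid n) tc) (dcl D (inst n m kb kw c P H))) m P →
  Sound (goG (grid n) tc) sk (dcl D (inst n m kb kw c P H)) {x | x ∈ H} c P ((kb : ℤ) - kw) →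
  (inst n m kb kw c P H ∈ LangX (goX sk tc e Sm) ↔
    BWg (goG (grid n) tc) sk (insert (c, P) {x | x ∈ H}) false c P ((kb : ℤ) - kw))

/-- MAI (about 50 lines)
(The theorem.)
Proof.  hSIM with `q = 3` for `D false`, `D true`: `e₀ i`, `Sm i`.  `e` = the maximum of these, of hGDV and of hSZV.  `L = LangX (goX sk tc e Sm)`: in PSPACE by hPSX and hGDV; hFNV with the sizes of hSZV (`nV w = n`: hENV).
Hypotheses: hSIM hPSX hGDV hSZV hENV hFNV. -/
def StMAI : Prop := StMAIN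

end Pool.Agent.Helper79.GT
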