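import Pool.Agent.Helper79.GS.All
import Pool.Agent.Helper42.GT.M_LOS
import Pool.Agent.Helper54.GT.M_XLS
import Pool.Agent.Helper78.GT.M_GRS
import Pool.Agent.Helper24.GT.M_BES
import Pool.Agent.Helper89.GT.M_AHS
import Pool.Agent.Helper27.GT.M_WNS
import Pool.Agent.Helper6.GT.M_BRG
import Pool.Agent.Helper41.GT.M_BRM
import Pool.Agent.Helper29.GT.M_VAL
import Pool.Agent.Helper51.GT.M_TRS
import Pool.Agent.Helper98.GT.M_WSC
import Pool.Agent.Helper5.GT.M_WPR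
import Pool.Agent.Helper2.GT.M_WBD
import Pool.Agent.Helper2.GT.M_WDF
import Pool.Agent.Helper80.GT.M_KEY
import Pool.Agent.Helper21.GT.M_WIN
import Pool.Agent.Helper14.GT.M_INV
import Pool.Agent.Helper37.GT.M_SML
import Pool.Agent.Helper64.GT.M_GNM
import Pool.Agent.Helper2.GT.M_GRM
import Pool.Agent.Helper82.GT.M_GKL
import Pool.Agent.Helper75.GT.M_ONM
import Pool.Agent.Helper9.GT.M_SM1
import Pool.Agent.Helper66.GT.M_SM2
import Pool.Agent.Helper99.GT.M_SM3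
import Pool.Agent.Helper34.GT.M_SM4
import Pool.Agent.Helper76.GT.M_SM5
import Pool.Agent.Helper54.GT.M_SIM
import Pool.Agent.Helper15.GT.M_BNX
import Pool.Agent.Helper18.GT.M_FLX
import Pool.Agent.Helper54.GT.M_RKX
import Pool.Agent.Helper30.GT.M_WTX
import Pool.Agent.Helper82.GT.M_ARX
import Pool.Agent.Helper67.GT.M_TX1
import Pool.Agent.Helper10.GT.M_TX2
import Pool.Agent.Helper29.GT.M_TX3
import Pool.Agent.Helper97.GT.M_TX4
import Pool.Agent.Helper12.GT.M_TX5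
import Pool.Agent.Helper51.GT.M_TX6
import Pool.Agent.Helper2.GT.M_TX7
import Pool.Agent.Helper63.GT.M_EFX
import Pool.Agent.Helper63.GT.M_E1X
import Pool.Agent.Helper42.GT.M_E2X
import Pool.Agent.Helper63.GT.M_E3X
import Pool.Agent.Helper47.GT.M_PSX
import Pool.Agent.Helper94.GT.M_EVW
import Pool.Agent.Helper39.GT.M_EVL
import Pool.Agent.Helper41.GT.M_EVB
import Pool.Agent.Helper5.GT.M_EVS
import Pool.Agent.Helper64.GT.M_SZV
import Pool.Agent.Helper22.GT.M_GDV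
import Pool.Agent.Helper7.GT.M_ENV
import Pool.Agent.Helper37.GT.M_NUV
import Pool.Agent.Helper6.GT.M_VLV
import Pool.Agent.Helper81.GT.M_CRM
import Pool.Agent.Helper72.GT.M_CRS
import Pool.Agent.Helper87.GT.M_FNV
import Pool.Agent.Helper33.GT.M_MAI

/-!
# Project GT (MP_c2d095_lc): all modules
-/

set_option autoImplicit false

namespace Pool.Agent.Helper79.GT

theorem gLOS : StLOS := Pool.Agent.Helper42.GT.hLOS
theorem gXLS : StXLS := Pool.Agent.Helper54.GT.hXLS Pool.Agent.Helper79.GS.gLVL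
theorem gGRS : StGRS := Pool.Agent.Helper78.GT.hGRS Pool.Agent.Helper79.GS.gLVL gXLS
theorem gBES : StBES := Pool.Agent.Helper24.GT.hBES Pool.Agent.Helper79.GS.gLVL gXLS Pool.Agent.Helper79.GS.gGEO gGRS
theorem gAHS : StAHS := Pool.Agent.Helper89.GT.hAHS gBES
theorem gWNS : StWNS := Pool.Agent.Helper27.GT.hWNS Pool.Agent.Helper79.GS.gLVL gXLS gLOS gBES gAHS
theorem gBRG : StBRG := Pool.Agent.Helper6.GT.hBRG
theorem gBRM : StBRM := Pool.Agent.Helper41.GT.hBRM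
theorem gVAL : StVAL := Pool.Agent.Helper29.GT.hVAL Pool.Agent.Helper79.GS.gWNM gWNS gBRG gBRM
theorem gTRS : StTRS := Pool.Agent.Helper51.GT.hTRS
theorem gWSC : StWSC := Pool.Agent.Helper98.GT.hWSC
theorem gWPR : StWPR := Pool.Agent.Helper5.GT.hWPR
theorem gWBD : StWBD := Pool.Agent.Helper2.GT.hWBD gWPR
theorem gWDF : StWDF := Pool.Agent.Helper2.GT.hWDF
theorem gKEY : StKEY := Pool.Agent.Helper80.GT.hKEY gWPR gWDF
theorem gWIN : StWIN := Pool.Agent.Helper21.GT.hWIN gWPR gWDF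
theorem gINV : StINV := Pool.Agent.Helper14.GT.hINV gKEY gWIN
theorem gSML : StSML := Pool.Agent.Helper37.GT.hSML gINV
theorem gGNM : StGNM := Pool.Agent.Helper64.GT.hGNM Pool.Agent.Helper79.GS.gKSC
theorem gGRM : StGRM := Pool.Agent.Helper2.GT.hGRM
theorem gGKL : StGKL := Pool.Agent.Helper82.GT.hGKL Pool.Agent.Helper79.GS.gKRV gGNM gGRM
theorem gONM : StONM := Pool.Agent.Helper75.GT.hONM
theorem gSM1 : StSM1 := Pool.Agent.Helper9.GT.hSM1
theorem gSM2 : StSM2 := Pool.Agent.Helper66.GT.hSM2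
theorem gSM3 : StSM3 := Pool.Agent.Helper99.GT.hSM3 gSM2
theorem gSM4 : StSM4 := Pool.Agent.Helper34.GT.hSM4 gSM2 gSM3
theorem gSM5 : StSM5 := Pool.Agent.Helper76.GT.hSM5 gSM2 gSM4
theorem gSIM : StSIM := Pool.Agent.Helper54.GT.hSIM gSM1 gSM5
theorem gBNX : StBNX := Pool.Agent.Helper15.GT.hBNX
theorem gFLX : StFLX := Pool.Agent.Helper18.GT.hFLX gBNX
theorem gRKX : StRKX := Pool.Agent.Helper54.GT.hRKX gBNX gFLX
theorem gWTX : StWTX := Pool.Agent.Helper30.GT.hWTX gBNX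
theorem gARX : StARX := Pool.Agent.Helper82.GT.hARX
theorem gTX1 : StTX1 := Pool.Agent.Helper67.GT.hTX1 gBNX gFLX gARX
theorem gTX2 : StTX2 := Pool.Agent.Helper10.GT.hTX2 gBNX gFLX gARX
theorem gTX3 : StTX3 := Pool.Agent.Helper29.GT.hTX3 gBNX gFLX gARX
theorem gTX4 : StTX4 := Pool.Agent.Helper97.GT.hTX4 gBNX gFLX gARX Pool.Agent.Helper79.GS.gCRI
theorem gTX5 : StTX5 := Pool.Agent.Helper12.GT.hTX5 gBNX gFLX gARX gWTX Pool.Agent.Helper79.GS.gTRC
theorem gTX6 : StTX6 := Pool.Agent.Helper51.GT.hTX6 gBNX gFLX gARX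
theorem gTX7 : StTX7 := Pool.Agent.Helper2.GT.hTX7 gBNX gFLX
theorem gEFX : StEFX := Pool.Agent.Helper63.GT.hEFX Pool.Agent.Helper79.GS.gEA
theorem gE1X : StE1X := Pool.Agent.Helper63.GT.hE1X Pool.Agent.Helper79.GS.gEA gEFX
theorem gE2X : StE2X := Pool.Agent.Helper42.GT.hE2X Pool.Agent.Helper79.GS.gEA gEFX
theorem gE3X : StE3X := Pool.Agent.Helper63.GT.hE3X Pool.Agent.Helper79.GS.gEA gEFX
theorem gPSX : StPSX := Pool.Agent.Helper47.GT.hPSX Pool.Agent.Helper79.GS.gREC gBNX gFLX gRKX gTX1 gTX2 gTX3 gTX4 gTX5 gTX6 gTX7 gE1X gE2X gE3X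
theorem gEVW : StEVW := Pool.Agent.Helper94.GT.hEVW
theorem gEVL : StEVL := Pool.Agent.Helper39.GT.hEVL gEVW
theorem gEVB : StEVB := Pool.Agent.Helper41.GT.hEVB Pool.Agent.Helper79.GS.gEB1 Pool.Agent.Helper79.GS.gEB2 gEVW gEVL
theorem gEVS : StEVS := Pool.Agent.Helper5.GT.hEVS Pool.Agent.Helper79.GS.gEB1 Pool.Agent.Helper79.GS.gEB2 gEVW
theorem gSZV : StSZV := Pool.Agent.Helper64.GT.hSZV
theorem gGDV : StGDV := Pool.Agent.Helper22.GT.hGDV gEVW gEVB gEVS gSZV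
theorem gENV : StENV := Pool.Agent.Helper7.GT.hENV Pool.Agent.Helper79.GS.gCOD
theorem gNUV : StNUV := Pool.Agent.Helper37.GT.hNUV Pool.Agent.Helper79.GS.gCOD Pool.Agent.Helper79.GS.gTCH
theorem gVLV : StVLV := Pool.Agent.Helper6.GT.hVLV Pool.Agent.Helper79.GS.gCOD
theorem gCRM : StCRM := Pool.Agent.Helper81.GT.hCRM Pool.Agent.Helper79.GS.gCOD Pool.Agent.Helper79.GS.gPLY gNUV gVLV
theorem gCRS : StCRS := Pool.Agent.Helper72.GT.hCRS Pool.Agent.Helper79.GS.gCOD Pool.Agent.Helper79.GS.gARE gNUV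
theorem gFNV : StFNV := Pool.Agent.Helper87.GT.hFNV gGKL gONM gSML gVAL gWSC gWBD gTRS gENV gCRM gCRS
theorem gMAI : StMAI := Pool.Agent.Helper33.GT.hMAI gSIM gPSX gGDV gSZV gENV gFNV

end Pool.Agent.Helper79.GT
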