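import Pool.Agent.Helper79.GS.Defs4

/-!
# Project GT (MP_c2d095_lc), extension of the project GS.  Definitions 1: the game and the theorem

Go under positional or situational superko, area or territory counting.  THEOREM: for all languages `D false`, `D true` in
PSPACE (declared losing and winning placements; a ko capture is never declared) there is a language in PSPACE which decides
whether Black wins for all instances such that (`Few`) no sequence of undeclared placements contains more than `m`
placements which decrease the number of stones (remove two stones at least), `m` in unary, and (`Sound`) in the play with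
undeclared placements each declared placement decides the game as declared.

The history is a set of situations (player to move, board); for positional superko only the boards matter.
-/

set_option autoImplicit false

namespace Pool.Agent.Helper79.GT

open Pool.Agent.Helper19.SK Pool.Agent.Helper79.GS

/-! ## Games -/

/-- A board game with a running difference: `mv c b b'`: a placement of the player `c` (`true` is Black) leads from the
board `b` to the board `b'`; `cp c b b'`: the change of the difference; `sc b d`: score of Black minus score of White at
the end (board `b`, difference `d`). -/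
structure Gm (P : Type) where
  mv : Bool → P → P → Prop
  cp : Bool → P → P → ℤ
  sc : P → ℤ → ℤ

/-- Superko (`sk = false`: positional, `sk = true`: situational): a placement of the player `c` may produce the board `b'`;
`H`: the situations (player to move, board) which have occurred. -/
def okk {P : Type} (sk c : Bool) (b' : P) (H : Set (Bool × P)) : Prop :=
  if sk = true then (!c, b') ∉ H else ∀ s, (s, b') ∉ H

/-- `BWg A sk H ps c b d`: Black has a winning strategy (final score `> 0`) when the current board is `b`, the difference is
`d`, the player `c` is to move, the situations of `H` have occurred, and `ps` says that the last move was a pass.  Passing is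
always allowed, two consecutive passes end the game. -/
inductive BWg {P : Type} (A : Gm P) (sk : Bool) : Set (Bool × P) → Bool → Bool → P → ℤ → Prop
  | stop (H : Set (Bool × P)) (b : P) (d : ℤ) : 0 < A.sc b d → BWg A sk H true true b d
  | pass (H : Set (Bool × P)) (b : P) (d : ℤ) : BWg A sk (insert (false, b) H) true false b d → BWg A sk H false true b d
  | move (H : Set (Bool × P)) (ps : Bool) (b b' : P) (d : ℤ) : A.mv true b b' → okk sk true b' H →
      BWg A sk (insert (false, b') H) false false b' (d + A.cp true b b') → BWg A sk H ps true b d
  | white (H : Set (Bool × P)) (ps : Bool) (b : P) (d : ℤ) : (ps = true → 0 < A.sc b d) →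
      (ps = false → BWg A sk (insert (true, b) H) true true b d) →
      (∀ b', A.mv false b b' → okk sk false b' H →
        BWg A sk (insert (true, b') H) false true b' (d + A.cp false b b')) → BWg A sk H ps false b d

/-- Undeclared placements: the opponent can take the placement back at once (ko captures), or it is not declared. -/
def und {P : Type} (A : Gm P) (D : Bool → Bool → P → P → Prop) (c : Bool) (b b' : P) : Prop :=
  A.mv c b b' ∧ (A.mv (!c) b' b ∨ ∀ i, ¬ D i c b b')

/-- The states `(H, ps, c, b, d)` of the plays with undeclared placements. -/
inductive Pl {P : Type} (A : Gm P) (sk : Bool) (D : Bool → Bool → P → P → Prop) (H₀ : Set (Bool × P)) (c₀ : Bool) (b₀ : P)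
    (d₀ : ℤ) : Set (Bool × P) → Bool → Bool → P → ℤ → Prop
  | start : Pl A sk D H₀ c₀ b₀ d₀ (insert (c₀, b₀) H₀) false c₀ b₀ d₀
  | pass (H : Set (Bool × P)) (c : Bool) (b : P) (d : ℤ) : Pl A sk D H₀ c₀ b₀ d₀ H false c b d →
      Pl A sk D H₀ c₀ b₀ d₀ (insert (!c, b) H) true (!c) b d
  | move (H : Set (Bool × P)) (ps c : Bool) (b b' : P) (d : ℤ) : Pl A sk D H₀ c₀ b₀ d₀ H ps c b d → und A D c b b' →
      okk sk c b' H → Pl A sk D H₀ c₀ b₀ d₀ (insert (!c, b') H) false (!c) b' (d + A.cp c b b')

/-- The declarations are sound: in the plays with undeclared placements a declared win is legal and wins, and a declared loss,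
if it is legal, loses (whatever is played later). -/
def Sound {P : Type} (A : Gm P) (sk : Bool) (D : Bool → Bool → P → P → Prop) (H₀ : Set (Bool × P)) (c₀ : Bool) (b₀ : P)
    (d₀ : ℤ) : Prop :=
  ∀ H ps c b d, Pl A sk D H₀ c₀ b₀ d₀ H ps c b d → ∀ b', A.mv c b b' → ¬ A.mv (!c) b' b →
    (D true c b b' → okk sk c b' H ∧ (BWg A sk (insert (!c, b') H) false (!c) b' (d + A.cp c b b') ↔ c = true)) ∧
    (D false c b b' → okk sk c b' H → (BWg A sk (insert (!c, b') H) false (!c) b' (d + A.cp c b b') ↔ c = false))

/-! ## Go -/

/-- The number of stones of the colour `c`. -/
noncomputable def num {V : Type} (P : Pos V) (c : Bool) : ℕ := ({v | P v = some c} : Set V).ncard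

/-- Territory of the colour `c`: empty points enclosed by this colour only. -/
noncomputable def terr {V : Type} (G : SimpleGraph V) (P : Pos V) (c : Bool) : ℕ := ({v | Encl G P c v} : Set V).ncard

/-- The change of (stones captured by Black minus stones captured by White) if the player `c` places a stone: white stones
removed minus black stones removed. -/
noncomputable def capd {V : Type} (c : Bool) (P Q : Pos V) : ℤ :=
  ((num P false : ℤ) + (if c = false then 1 else 0) - num Q false) -
    ((num P true : ℤ) + (if c = true then 1 else 0) - num Q true)

/-- Go on the graph `G` (a placement which does not change the board is never legal under superko); `tc = false`: area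
counting; `tc = true`: territory counting, the difference is (stones captured by Black) minus (stones captured by White). -/
noncomputable def goG {V : Type} (G : SimpleGraph V) (tc : Bool) : Gm (Pos V) where
  mv c P Q := ∃ e, P e = none ∧ Q = play G P c e ∧ Q ≠ P
  cp := capd
  sc P d := if tc = true then (terr G P true : ℤ) - terr G P false + d else (area G P true : ℤ) - area G P false

/-- Sequences of the placements `U` (of the two players in any order) with exactly `k` placements which decrease the number
of stones. -/
inductive Sq {V : Type} (U : Bool → Pos V → Pos V → Prop) (P : Pos V) : ℕ → Pos V → Prop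
  | refl : Sq U P 0 P
  | keep (k : ℕ) (c : Bool) (Q R : Pos V) : Sq U P k Q → U c Q R → num Q true + num Q false ≤ num R true + num R false →
      Sq U P k R
  | drop (k : ℕ) (c : Bool) (Q R : Pos V) : Sq U P k Q → U c Q R → num R true + num R false < num Q true + num Q false →
      Sq U P (k + 1) R

/-- No sequence contains more than `m` placements which decrease the number of stones. -/
def Few {V : Type} (U : Bool → Pos V → Pos V → Prop) (m : ℕ) (P : Pos V) : Prop := ∀ k Q, Sq U P k Q → k ≤ m

/-! ## Words -/

/-- The word of a situation: the board (row by row) and the player to move. -/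
def sword {n : ℕ} (x : Bool × Pos (Fin n × Fin n)) : List (Fin 5) := bword x.2 ++ [ltr (some x.1)]

/-- The word of an instance: the size `n` in unary (letter `3`), a separator (letter `4`), the situation `(c, P)`, the
situations of the history `H`, and in unary after separators the number `m`, the numbers `kb`, `kw` of stones captured by
Black and White. -/
def inst (n m kb kw : ℕ) (c : Bool) (P : Pos (Fin n × Fin n)) (H : List (Bool × Pos (Fin n × Fin n))) : List (Fin 5) :=
  List.replicate n 3 ++ 4 :: ((((c, P) :: H).map sword).flatten ++ 4 :: (List.replicate m 3 ++
    4 :: (List.replicate kb 3 ++ 4 :: List.replicate kw 3)))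

/-- The declarations given by two languages: the words of an instance, a player and two boards. -/
def dcl (D : Bool → Set (List (Fin 5))) {n : ℕ} (w : List (Fin 5)) (i c : Bool) (P Q : Pos (Fin n × Fin n)) : Prop :=
  w ++ ltr (some c) :: (bword P ++ bword Q) ∈ D i

/-- The THEOREM. -/
def StMAIN : Prop := ∀ (sk tc : Bool) (D : Bool → Set (List (Fin 5))), (∀ i, D i ∈ PSPACE (Fin 5)) →
  ∃ L ∈ PSPACE (Fin 5), ∀ (n m kb kw : ℕ) (c : Bool) (P : Pos (Fin n × Fin n)) (H : List (Bool × Pos (Fin n × Fin n))),
    1 ≤ n → Few (und (goG (grid n) tc) (dcl D (inst n m kb kw c P H))) m P →
    Sound (goG (grid n) tc) sk (dcl D (inst n m kb kw c P H)) {x | x ∈ H} c P ((kb : ℤ) - kw) →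
    (inst n m kb kw c P H ∈ L ↔ BWg (goG (grid n) tc) sk (insert (c, P) {x | x ∈ H}) false c P ((kb : ℤ) - kw))

end Pool.Agent.Helper79.GT
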