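import Pool.Agent.Helper79.GT.Defs
import Pool.Agent.Helper79.GS.Defs

/-!
# Project GT (MP_c2d095_lc).  Definitions 2: positional and situational superko, abstract

Histories are sets of situations `(c, x)`: the player `c` is to move, the board is `x`.  `sk = false`: positional,
`sk = true`: situational superko.
-/

set_option autoImplicit false

namespace Pool.Agent.Helper79.GT

open Pool.Agent.Helper19.SK Pool.Agent.Helper79.GS

/-- The player `c`, to move in the board `b`, wins (form which is symmetric in the players, finite number of boards). -/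
def MWs {P : Type} [Finite P] (A : Arena P) (sk : Bool) (H : Set (Bool × P)) (ps c : Bool) (b : P) : Prop :=
  (ps = true ∧ ahead A c b) ∨ (∃ _ : ps = false, ¬ MWs A sk (insert (!c, b) H) true (!c) b) ∨
    ∃ b', A.mv c b b' ∧ ∃ _ : okk sk c b' H, ¬ MWs A sk (insert (!c, b') H) false (!c) b'
termination_by ((Hᶜ).ncard, cond ps 0 1)
decreasing_by
  · by_cases hh : (!c, b) ∈ H
    · rw [Set.insert_eq_of_mem hh]
      simp_all [Prod.lex_def]
    · refine Prod.Lex.left _ _ (Set.ncard_lt_ncard ?_ (Set.toFinite _))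
      refine ⟨fun x hx hxH => hx (Or.inr hxH), fun hcon => ?_⟩
      exact hcon (show (!c, b) ∈ Hᶜ from hh) (Or.inl rfl)
  · have hn : (!c, b') ∉ H := by
      have h1 : okk sk c b' H := by assumption
      unfold okk at h1
      split_ifs at h1 with h2
      · exact h1
      · exact h1 _
    refine Prod.Lex.left _ _ (Set.ncard_lt_ncard ?_ (Set.toFinite _))
    refine ⟨fun x hx hxH => hx (Or.inr hxH), fun hcon => ?_⟩
    exact hcon (show (!c, b') ∈ Hᶜ from hn) (Or.inl rfl)

/-- The graph of the player `c`, who is behind and to move in `u`; `V`: situations which have occurred. -/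
def GrS {P : Type} (A : Arena P) (EX : Bool → P → Prop) (V : Set (Bool × P)) (c : Bool) (X : P → Prop) (u : P) (y x : P) :
    Prop :=
  (y = u ∨ ((c, y) ∉ V ∧ ¬ EX c y)) ∧ A.s y = A.s u ∧ rv A c y x ∧ (!c, x) ∉ V ∧ ¬ EX (!c) x ∧ (¬ ahead A c x → X x)

/-- The player `c`, behind and to move in `u`, wins (recursion over the distance from the threshold). -/
def XkS {P : Type} (A : Arena P) (EX : Bool → P → Prop) (V : Set (Bool × P)) (c : Bool) : ℕ → P → Prop
  | 0, _ => False
  | k + 1, u => EX c u ∨ Ess (GrS A EX V c (XkS A EX V c k) u) u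

/-- The same with the right number of steps of the recursion. -/
def XINS {P : Type} (A : Arena P) (EX : Bool → P → Prop) (V : Set (Bool × P)) (c : Bool) (u : P) : Prop :=
  XkS A EX V c (mg A c u / 4 + 1) u

/-- The situations of `H₀` and two more: the board `a` with the player `!c` to move, the board `b` with the player `c` to move
(positional superko: both boards with both players). -/
def Vis {P : Type} (sk : Bool) (H₀ : Set (Bool × P)) (c : Bool) (a b : P) : Set (Bool × P) :=
  {z | z ∈ H₀ ∨ (z.2 = a ∧ (sk = true → z.1 = !c)) ∨ (z.2 = b ∧ (sk = true → z.1 = c))}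

open Classical in
/-- The player `c`, to move in the board `b`, wins, when the situations of `H₀` and `(c, b)` have occurred. -/
def WstS {P : Type} (A : Arena P) (sk : Bool) (H₀ : Set (Bool × P)) (EX : Bool → P → Prop) (c : Bool) (b : P) : Prop :=
  if ahead A c b then
    EX c b ∨ ¬ XINS A EX (Vis sk H₀ (!c) b b) (!c) b ∨
      ∃ w, rv A c b w ∧ (!c, w) ∉ H₀ ∧ w ≠ b ∧ ¬ XINS A EX (Vis sk H₀ (!c) b w) (!c) w
  else XINS A EX (Vis sk H₀ c b b) c b

/-- A winning placement which is not reversible. -/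
def extS {P : Type} (A : Arena P) (H₀ : Set (Bool × P)) (W : Bool → P → Prop) (c : Bool) (u : P) : Prop :=
  ∃ b', A.mv c u b' ∧ ¬ A.mv (!c) b' u ∧ (!c, b') ∉ H₀ ∧ ¬ W (!c) b'

/-- The value of the game if at most `r` placements are not reversible: the player `c`, to move in `b`, wins. -/
def WNs {P : Type} (A : Arena P) (sk : Bool) (H₀ : Set (Bool × P)) : ℕ → Bool → P → Prop
  | 0 => WstS A sk H₀ (fun _ _ => False)
  | r + 1 => WstS A sk H₀ (extS A H₀ (WNs A sk H₀ r))

/-- The corresponding winning placements which are not reversible. -/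
def ENs {P : Type} (A : Arena P) (sk : Bool) (H₀ : Set (Bool × P)) : ℕ → Bool → P → Prop
  | 0 => fun _ _ => False
  | r + 1 => extS A H₀ (WNs A sk H₀ r)

/-! ## The game with a window for the difference -/

/-- The arena of the undeclared placements; the score is a potential `pt`. -/
def uA {P : Type} (A : Gm P) (D : Bool → Bool → P → P → Prop) (pt : P → ℤ) : Arena P where
  mv := und A D
  s := pt

/-- The boards with a difference `d₀ - B + i`, `i < M`, and two boards for the declared wins.  The scores are `4` times the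
number of steps `g` to the threshold. -/
def wA {P : Type} (A : Gm P) (D : Bool → Bool → P → P → Prop) (g : ℕ) (M B : ℕ) (d₀ : ℤ) : Arena ((P × Fin M) ⊕ Bool) where
  mv c x y := match x, y with
    | Sum.inl a, Sum.inl a' => und A D c a.1 a'.1 ∧ (a'.2.val : ℤ) = a.2.val + A.cp c a.1 a'.1
    | Sum.inl a, Sum.inr c' => c' = c ∧ ∃ b', A.mv c a.1 b' ∧ ¬ A.mv (!c) b' a.1 ∧ D true c a.1 b'
    | Sum.inr _, _ => False
  s x := match x with
    | Sum.inl a => -4 * (-(A.sc a.1 (d₀ - B + a.2.val)) / (g : ℤ))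
    | Sum.inr c' => if c' = true then 4 else 0

/-- The history in the window. -/
def wH {P : Type} (sk : Bool) (M : ℕ) (H₀ : Set (Bool × P)) : Set (Bool × ((P × Fin M) ⊕ Bool)) :=
  {z | ∃ a : P × Fin M, z.2 = Sum.inl a ∧ ((z.1, a.1) ∈ H₀ ∨ (sk = false ∧ (!z.1, a.1) ∈ H₀))}

/-- Ko captures: a potential changes by `4`, the difference by `1`, the score by `g`; all changes are bounded. -/
structure KoLaw {P : Type} (A : Gm P) (pt : P → ℤ) (g N : ℕ) : Prop where
  ko : ∀ b b', A.mv true b b' → A.mv false b' b →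
    pt b' = pt b + 4 ∧ A.cp true b b' = 1 ∧ A.cp false b' b = -1 ∧ ∀ d, A.sc b' (d + 1) = A.sc b d + g
  bp : ∀ b, |pt b| ≤ (N : ℤ)
  bc : ∀ c b b', A.mv c b b' → |A.cp c b b'| ≤ (N : ℤ)
  gp : 1 ≤ g

/-- Corresponding states: history `H` and board `b` of the game, history `H'` and board `(b, i)` in the window. -/
structure Inv {P : Type} (A : Gm P) (D : Bool → Bool → P → P → Prop) (sk : Bool) (g M B : ℕ) (d₀ : ℤ) (H₀ : Set (Bool × P))
    (a₀ : P × Fin M) (H : Set (Bool × P)) (H' : Set (Bool × ((P × Fin M) ⊕ Bool))) (a : P × Fin M) : Prop where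
  i1 : ∀ s x, (s, Sum.inl x) ∈ H' → (s, x.1) ∈ H ∨ (sk = false ∧ (!s, x.1) ∈ H)
  i2 : ∀ s x, (s, x) ∈ H → (s, x) ∈ H₀ ∨ ∃ z : P × Fin M, z.1 = x ∧ (s, Sum.inl z) ∈ H' ∧
    (∃ k, Rch (wA A D g M B d₀) (Sum.inl a₀) k (Sum.inl z)) ∧ ∃ k, Rch (wA A D g M B d₀) (Sum.inl z) k (Sum.inl a)
  i3 : ∀ z, z ∈ wH sk M H₀ → z ∈ H'
  i4 : ∀ s c, (s, Sum.inr c) ∉ H'
  i5 : ∃ k, Rch (wA A D g M B d₀) (Sum.inl a₀) k (Sum.inl a)

end Pool.Agent.Helper79.GT
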