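import Pool.Agent.Helper79.GS.Defs5
import Pool.Agent.Helper79.GT.Defs2

/-!
# Project GT (MP_c2d095_lc).  Definitions 3: the recursive procedure for a general family of games

`Sys`: a family of games given by E2 functions (boards are numbers, `N` is a large number).  The declarations are those of
`Pool/Agent/Helper79/GS/Defs5.lean` with `X : Sys α` instead of Go (names with `X` instead of `N` or `W`) and with
situations (player to move, board) instead of boards in the histories; sizes `2 ^ K w` instead of `3 ^ (n * n)`, scores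
`≤ S w` instead of `≤ n * n`.
-/

set_option autoImplicit false

namespace Pool.Agent.Helper79.GT

open Pool.Agent.Helper73.DC Pool.Agent.Helper79.GS Finset
open scoped Classical

/-- A family of games: `e`: exponent of the large number `N = NN e w`; boards are numbers `< 2 ^ K w`; `S w`: bound of the scores;
`R w`: budget of placements which are not reversible; `mv N w c u x`: placement of the player `c` (`1` Black, `0` White);
`ar N w c u`: score of the player `c`; `H N w s u`: the situation (player `s` to move, board `u`) has occurred; `b0 N w`: the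
board; `pl w`: the player to move; `sk`: situational superko (`false`: positional). -/
structure Sys (α : Type) where
  sk : Bool
  e : ℕ
  K : List α → ℕ
  S : List α → ℕ
  R : List α → ℕ
  mv : ℕ → List α → ℕ → ℕ → ℕ → Prop
  ar : ℕ → List α → ℕ → ℕ → ℕ
  H : ℕ → List α → ℕ → ℕ → Prop
  b0 : ℕ → List α → ℕ
  pl : List α → ℕ

/-- Exponent of the base of the fields. -/
def Lam {α : Type} (X : Sys α) (w : List α) : ℕ := 32 * (X.K w + 2) ^ 2 + X.R w + X.S w + 16

/-- The conditions: E2 functions, bounds. -/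
structure Gd {α : Type} [Fintype α] (X : Sys α) : Prop where
  eK : E2 (α := α) (fun w _ => X.K w)
  eS : E2 (α := α) (fun w _ => X.S w)
  eR : E2 (α := α) (fun w _ => X.R w)
  emv : ∀ N C U Y : VF α, E2 N → E2 C → E2 U → E2 Y → E2P (fun w v => X.mv (N w v) w (C w v) (U w v) (Y w v))
  ear : ∀ N C U : VF α, E2 N → E2 C → E2 U → E2 (fun w v => X.ar (N w v) w (C w v) (U w v))
  eH : ∀ N C U : VF α, E2 N → E2 C → E2 U → E2P (fun w v => X.H (N w v) w (C w v) (U w v))
  eb : ∀ N : VF α, E2 N → E2 (fun w v => X.b0 (N w v) w)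
  epl : E2 (α := α) (fun w _ => X.pl w)
  hmv : ∀ w c u x, X.mv (NN X.e w) w c u x → u < 2 ^ X.K w ∧ x < 2 ^ X.K w
  har : ∀ w c u, c ≤ 1 → X.ar (NN X.e w) w c u ≤ X.S w
  hb : ∀ w, X.b0 (NN X.e w) w < 2 ^ X.K w
  hpl : ∀ w, X.pl w ≤ 1
  hsz : ∀ w : List α, (14 * Lam X w) ^ 3 ≤ (w.length + 2) ^ X.e

/-- The arena of a word. -/
noncomputable def AX {α : Type} (X : Sys α) (w : List α) : Arena ℕ where
  mv c u u' := X.mv (NN X.e w) w (bn c) u u'
  s u := (X.ar (NN X.e w) w 1 u : ℤ) - (X.ar (NN X.e w) w 0 u : ℤ)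

/-- The exponent of the size of the matrices. -/
def LX {α : Type} (X : Sys α) (w : List α) : ℕ := X.K w + 1

/-- Base of the fields. -/
noncomputable def PhX {α : Type} (X : Sys α) (N : ℕ) (w : List α) : ℕ := pw N 2 (Lam X w)

/-- Number of boards. -/
noncomputable def NbX {α : Type} (X : Sys α) (N : ℕ) (w : List α) : ℕ := pw N 2 (X.K w)

/-- Size of the matrix. -/
noncomputable def nmX {α : Type} (X : Sys α) (N : ℕ) (w : List α) : ℕ := pw N 2 (LX X w)

/-- Number of states of the transfer matrix. -/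
noncomputable def SdX {α : Type} (X : Sys α) (N : ℕ) (w : List α) : ℕ := (nmX X N w + 1) * (nmX X N w + 2)

/-- The argument with given fields. -/
noncomputable def zzX {α : Type} (X : Sys α) (N : ℕ) (w : List α) (T r c a b u k m fl d s t x : ℕ) : ℕ :=
  Nat.ofDigits (PhX X N w) [T, r, c, a, b, u, k, m, fl, d, s, t, x]

/-- The field number `i`. -/
noncomputable def fiX {α : Type} (X : Sys α) (N : ℕ) (w : List α) (z i : ℕ) : ℕ := dg (PhX X N w) z i

/-- The player `c` is ahead. -/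
def ahX {α : Type} (X : Sys α) (N : ℕ) (w : List α) (c u : ℕ) : Prop :=
  if c = 1 then X.ar N w 0 u < X.ar N w 1 u else ¬ X.ar N w 0 u < X.ar N w 1 u

/-- Number of levels to the threshold, plus one. -/
noncomputable def idX {α : Type} (X : Sys α) (N : ℕ) (w : List α) (c u : ℕ) : ℕ :=
  if c = 1 then (X.ar N w 0 u - X.ar N w 1 u) / 4 + 1 else (X.ar N w 1 u - X.ar N w 0 u - 1) / 4 + 1

/-- Reversible placements. -/
def rvX {α : Type} (X : Sys α) (N : ℕ) (w : List α) (c u x : ℕ) : Prop := X.mv N w c u x ∧ X.mv N w (1 - c) x u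

/-- The situation (player `s`, board `x`) has occurred; `c`: the player who is behind. -/
def VNX {α : Type} (X : Sys α) (N : ℕ) (w : List α) (c a b s x : ℕ) : Prop :=
  X.H N w s x ∨ (x = a ∧ (X.sk = true → s = 1 - c)) ∨ (x = b ∧ (X.sk = true → s = c))

/-- The value of an entry of the transfer matrix modulo `q`; `y ≠ 0`: `(i, j)` is an edge of the graph. -/
noncomputable def entX {α : Type} (X : Sys α) (N : ℕ) (w : List α) (m s t x y : ℕ) : ℕ :=
  if trK (nmX X N w) s t = 1 then 1 % (xqN N (LX X w) x + 1)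
  else if trK (nmX X N w) s t = 0 then 0
  else if (trI (nmX X N w) s < NbX X N w ∧ trJ (nmX X N w) s t < NbX X N w ∧ y ≠ 0) ∨
      padS (NbX X N w) m (trI (nmX X N w) s) (trJ (nmX X N w) s t) then
    if trK (nmX X N w) s t = 2 then
      (xqN N (LX X w) x + 1 - evN N (LX X w) x (trI (nmX X N w) s) (trJ (nmX X N w) s t)) %
        (xqN N (LX X w) x + 1)
    else evN N (LX X w) x (trI (nmX X N w) s) (trJ (nmX X N w) s t)
  else 0

/-! ## The procedure -/

/-- Condition for the third kind of moves of the player who is ahead. -/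
def c1X {α : Type} (X : Sys α) (N : ℕ) (w : List α) (c u x : ℕ) : Prop := rvX X N w c u x ∧ ¬ X.H N w (1 - c) x ∧ x ≠ u

/-- Condition for placements which are not reversible. -/
def c2X {α : Type} (X : Sys α) (N : ℕ) (w : List α) (c u x : ℕ) : Prop :=
  X.mv N w c u x ∧ ¬ X.mv N w (1 - c) x u ∧ ¬ X.H N w (1 - c) x

noncomputable def del1X {α : Type} (X : Sys α) (N : ℕ) (w : List α) (r c u j : ℕ) : ℕ :=
  if ahX X N w c u then
    if j = 0 then zzX X N w 2 r c 0 0 u 0 0 0 0 0 0 0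
    else if j = 1 then zzX X N w 3 r (1 - c) u u u (idX X N w (1 - c) u) 0 0 0 0 0 0
    else if c1X X N w c u (j - 2) then
      zzX X N w 3 r (1 - c) u (j - 2) (j - 2) (idX X N w (1 - c) (j - 2)) 0 0 0 0 0 0
    else 0
  else zzX X N w 3 r c u u u (idX X N w c u) 0 0 0 0 0 0

noncomputable def stp1X {α : Type} (X : Sys α) (N : ℕ) (w : List α) (c u j a y : ℕ) : ℕ :=
  if ahX X N w c u then
    if j = 0 then b01 (a = 1 ∨ y ≠ 0)
    else if j = 1 then b01 (a = 1 ∨ y = 0)
    else b01 (a = 1 ∨ (c1X X N w c u (j - 2) ∧ y = 0))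
  else b01 (y ≠ 0)

noncomputable def del2X {α : Type} (X : Sys α) (N : ℕ) (w : List α) (r c u j : ℕ) : ℕ :=
  if c2X X N w c u j then zzX X N w 1 (r - 1) (1 - c) 0 0 j 0 0 0 0 0 0 0 else 0

noncomputable def stp2X {α : Type} (X : Sys α) (N : ℕ) (w : List α) (c u j a y : ℕ) : ℕ := b01 (a = 1 ∨ (c2X X N w c u j ∧ y = 0))

noncomputable def del3X {α : Type} (X : Sys α) (N : ℕ) (w : List α) (r c a b u k j : ℕ) : ℕ :=
  if j = 0 then zzX X N w 2 r c 0 0 u 0 0 0 0 0 0 0
  else zzX X N w 4 r c a b u (k - 1) ((j - 1) / 2) ((j - 1) % 2) 0 0 0 0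

noncomputable def del4X {α : Type} (X : Sys α) (N : ℕ) (w : List α) (r c a b u k m fl j : ℕ) : ℕ :=
  zzX X N w 5 r c a b u k m fl (LX X w + 1) (nmX X N w) (nmX X N w * (nmX X N w + 2) + nmX X N w) j

noncomputable def del5X {α : Type} (X : Sys α) (N : ℕ) (w : List α) (r c a b u k m fl d s t x j : ℕ) : ℕ :=
  if d = 0 then
    if 2 ≤ trK (nmX X N w) s t ∧ trI (nmX X N w) s < NbX X N w ∧ trJ (nmX X N w) s t < NbX X N w then
      zzX X N w 6 r c a b u k 0 fl 0 (trI (nmX X N w) s) (trJ (nmX X N w) s t) 0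
    else 0
  else if j % 2 = 0 then zzX X N w 5 r c a b u k m fl (d - 1) s (j / 2) x
  else zzX X N w 5 r c a b u k m fl (d - 1) (j / 2) t x

noncomputable def stp5X {α : Type} (X : Sys α) (N : ℕ) (w : List α) (m d s t x j a y : ℕ) : ℕ :=
  if d = 0 then entX X N w m s t x y
  else if j % 2 = 0 then a % PhX X N w + PhX X N w * (y % PhX X N w)
  else (a % PhX X N w + a / PhX X N w * y) % (xqN N (LX X w) x + 1)

noncomputable def del6X {α : Type} (X : Sys α) (N : ℕ) (w : List α) (r c a b k s t j : ℕ) : ℕ :=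
  if j = 0 then zzX X N w 2 r c 0 0 s 0 0 0 0 0 0 0
  else if j = 1 then zzX X N w 2 r (1 - c) 0 0 t 0 0 0 0 0 0 0
  else zzX X N w 3 r c a b t k 0 0 0 0 0 0

noncomputable def stp6X {α : Type} (X : Sys α) (N : ℕ) (w : List α) (c u s t j a y : ℕ) : ℕ :=
  if j = 0 then b01 (a = 1 ∧ (s = u ∨ y = 0))
  else if j = 1 then b01 (a = 1 ∧ y = 0)
  else b01 (a = 1 ∧ (ahX X N w c t ∨ y ≠ 0))

noncomputable def ini6X {α : Type} (X : Sys α) (N : ℕ) (w : List α) (c a b u fl s t : ℕ) : ℕ :=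
  b01 ((fl = 1 → s ≠ u) ∧ X.ar N w 1 s + X.ar N w 0 u = X.ar N w 1 u + X.ar N w 0 s ∧
    rvX X N w c s t ∧ ¬ VNX X N w c a b (1 - c) t ∧ (s = u ∨ ¬ VNX X N w c a b c s))

/-! ## The procedure -/

noncomputable def IniX {α : Type} (X : Sys α) (N : ℕ) (w : List α) (z : ℕ) : ℕ :=
  if fiX X N w z 0 = 6 then
    ini6X X N w (fiX X N w z 2) (fiX X N w z 3) (fiX X N w z 4) (fiX X N w z 5) (fiX X N w z 8) (fiX X N w z 10) (fiX X N w z 11)
  else 0

noncomputable def LenX {α : Type} (X : Sys α) (N : ℕ) (w : List α) (z : ℕ) : ℕ :=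
  if fiX X N w z 0 = 1 then (if ahX X N w (fiX X N w z 2) (fiX X N w z 5) then NbX X N w + 2 else 1)
  else if fiX X N w z 0 = 2 then (if fiX X N w z 1 = 0 then 0 else NbX X N w)
  else if fiX X N w z 0 = 3 then (if fiX X N w z 6 = 0 then 0 else 2 * (NbX X N w + 1) + 1)
  else if fiX X N w z 0 = 4 then XbN N (LX X w)
  else if fiX X N w z 0 = 5 then (if fiX X N w z 9 = 0 then 1 else 2 * SdX X N w)
  else if fiX X N w z 0 = 6 then 3
  else if fiX X N w z 0 = 7 then 1
  else 0

noncomputable def DelX {α : Type} (X : Sys α) (N : ℕ) (w : List α) (z j : ℕ) : ℕ :=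
  if fiX X N w z 0 = 1 then del1X X N w (fiX X N w z 1) (fiX X N w z 2) (fiX X N w z 5) j
  else if fiX X N w z 0 = 2 then del2X X N w (fiX X N w z 1) (fiX X N w z 2) (fiX X N w z 5) j
  else if fiX X N w z 0 = 3 then
    del3X X N w (fiX X N w z 1) (fiX X N w z 2) (fiX X N w z 3) (fiX X N w z 4) (fiX X N w z 5) (fiX X N w z 6) j
  else if fiX X N w z 0 = 4 then
    del4X X N w (fiX X N w z 1) (fiX X N w z 2) (fiX X N w z 3) (fiX X N w z 4) (fiX X N w z 5) (fiX X N w z 6) (fiX X N w z 7) (fiX X N w z 8) j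
  else if fiX X N w z 0 = 5 then
    del5X X N w (fiX X N w z 1) (fiX X N w z 2) (fiX X N w z 3) (fiX X N w z 4) (fiX X N w z 5) (fiX X N w z 6) (fiX X N w z 7) (fiX X N w z 8)
      (fiX X N w z 9) (fiX X N w z 10) (fiX X N w z 11) (fiX X N w z 12) j
  else if fiX X N w z 0 = 6 then
    del6X X N w (fiX X N w z 1) (fiX X N w z 2) (fiX X N w z 3) (fiX X N w z 4) (fiX X N w z 6) (fiX X N w z 10) (fiX X N w z 11) j
  else if fiX X N w z 0 = 7 then zzX X N w 1 (fiX X N w z 1) (fiX X N w z 2) 0 0 (fiX X N w z 5) 0 0 0 0 0 0 0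
  else 0

noncomputable def StpX {α : Type} (X : Sys α) (N : ℕ) (w : List α) (z j a y : ℕ) : ℕ :=
  if fiX X N w z 0 = 1 then stp1X X N w (fiX X N w z 2) (fiX X N w z 5) j a y
  else if fiX X N w z 0 = 2 then stp2X X N w (fiX X N w z 2) (fiX X N w z 5) j a y
  else if fiX X N w z 0 = 3 then stp3 j a y
  else if fiX X N w z 0 = 4 then stp4 a y
  else if fiX X N w z 0 = 5 then
    stp5X X N w (fiX X N w z 7) (fiX X N w z 9) (fiX X N w z 10) (fiX X N w z 11) (fiX X N w z 12) j a y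
  else if fiX X N w z 0 = 6 then stp6X X N w (fiX X N w z 2) (fiX X N w z 5) (fiX X N w z 10) (fiX X N w z 11) j a y
  else if fiX X N w z 0 = 7 then (if fiX X N w z 2 = 1 then b01 (y ≠ 0) else b01 (y = 0))
  else 0

noncomputable def OutX {α : Type} (X : Sys α) (N : ℕ) (w : List α) (z a : ℕ) : ℕ :=
  if fiX X N w z 0 = 3 then b01 (a = 1)
  else if fiX X N w z 0 = 5 then a % PhX X N w
  else b01 (a = 1)

/-- The first call. -/
noncomputable def Z0X {α : Type} (X : Sys α) (N : ℕ) (w : List α) : ℕ := zzX X N w 7 (X.R w) (X.pl w) 0 0 (X.b0 N w) 0 0 0 0 0 0 0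

/-! ## Meaning -/

/-- The situations which have occurred. -/
def HX {α : Type} (X : Sys α) (w : List α) : Set (Bool × ℕ) := {z | X.H (NN X.e w) w (bn z.1) z.2}

/-- The same with two more situations. -/
def VX {α : Type} (X : Sys α) (w : List α) (c a b : ℕ) : Set (Bool × ℕ) := Vis X.sk (HX X w) (cB c) a b

/-- The graph. -/
def GX {α : Type} (X : Sys α) (w : List α) (r c a b u k fl : ℕ) : ℕ → ℕ → Prop :=
  if fl = 1 then
    del (GrS (AX X w) (ENs (AX X w) X.sk (HX X w) r) (VX X w c a b) (cB c)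
      (XkS (AX X w) (ENs (AX X w) X.sk (HX X w) r) (VX X w c a b) (cB c) k) u) u
  else GrS (AX X w) (ENs (AX X w) X.sk (HX X w) r) (VX X w c a b) (cB c)
    (XkS (AX X w) (ENs (AX X w) X.sk (HX X w) r) (VX X w c a b) (cB c) k) u

/-- The value of a call with given fields. -/
noncomputable def ValFX {α : Type} (X : Sys α) (w : List α) (T r c a b u k m fl d s t x : ℕ) : ℕ :=
  if T = 1 then b01 (WNs (AX X w) X.sk (HX X w) r (cB c) u)
  else if T = 2 then b01 (ENs (AX X w) X.sk (HX X w) r (cB c) u)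
  else if T = 3 then b01 (XkS (AX X w) (ENs (AX X w) X.sk (HX X w) r) (VX X w c a b) (cB c) k u)
  else if T = 4 then b01 (Mat (GX X w r c a b u k fl) m)
  else if T = 5 then
    (trP (2 ^ LX X w) (aM (LX X w) (padE (GX X w r c a b u k fl) (2 ^ X.K w) m) x) d s t %
      (xq (LX X w) x : ℤ)).toNat
  else if T = 6 then b01 (GX X w r c a b u k fl s t)
  else if T = 7 then
    b01 (if c = 1 then WNs (AX X w) X.sk (HX X w) r true u else ¬ WNs (AX X w) X.sk (HX X w) r false u)
  else 0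

/-- The value of a call. -/
noncomputable def ValX {α : Type} (X : Sys α) (w : List α) (z : ℕ) : ℕ :=
  ValFX X w (fiX X (NN X.e w) w z 0) (fiX X (NN X.e w) w z 1) (fiX X (NN X.e w) w z 2) (fiX X (NN X.e w) w z 3) (fiX X (NN X.e w) w z 4)
    (fiX X (NN X.e w) w z 5) (fiX X (NN X.e w) w z 6) (fiX X (NN X.e w) w z 7) (fiX X (NN X.e w) w z 8) (fiX X (NN X.e w) w z 9)
    (fiX X (NN X.e w) w z 10) (fiX X (NN X.e w) w z 11) (fiX X (NN X.e w) w z 12)

/-- Conditions for the fields. -/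
def OkFX {α : Type} (X : Sys α) (w : List α) (T r c a b u k m fl d s t x : ℕ) : Prop :=
  1 ≤ T ∧ T ≤ 7 ∧ r ≤ X.R w ∧ c ≤ 1 ∧ a < 2 ^ X.K w ∧ b < 2 ^ X.K w ∧ u < 2 ^ X.K w ∧
  k ≤ X.S w + 1 ∧ (T ≠ 3 → k ≤ X.S w) ∧ m ≤ 2 ^ X.K w ∧ fl ≤ 1 ∧ d ≤ LX X w + 1 ∧
  s < (2 ^ LX X w + 1) * (2 ^ LX X w + 2) ∧ t < (2 ^ LX X w + 1) * (2 ^ LX X w + 2) ∧ x < Xb (LX X w) ∧
  (T = 6 → s < 2 ^ X.K w ∧ t < 2 ^ X.K w)

/-- Valid calls. -/
def OkX {α : Type} (X : Sys α) (w : List α) (z : ℕ) : Prop :=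
  z = 0 ∨ ∃ T r c a b u k m fl d s t x, OkFX X w T r c a b u k m fl d s t x ∧
    z = zzX X (NN X.e w) w T r c a b u k m fl d s t x

/-- The rank of a call with given fields. -/
noncomputable def rkFX {α : Type} (X : Sys α) (w : List α) (T r k d : ℕ) : ℕ :=
  if T = 0 then 0
  else r * ((X.S w + 2) * (LX X w + 6) + 2) +
    (if T = 1 then 2 + (X.S w + 2) * (LX X w + 6)
    else if T = 2 then 1
    else if T = 3 then 2 + k * (LX X w + 6)
    else if T = 4 then 2 + k * (LX X w + 6) + LX X w + 4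
    else if T = 5 then 4 + k * (LX X w + 6) + d
    else if T = 6 then 3 + k * (LX X w + 6)
    else 3 + (X.S w + 2) * (LX X w + 6))

/-- The rank of a call. -/
noncomputable def rkX {α : Type} (X : Sys α) (w : List α) (z : ℕ) : ℕ :=
  rkFX X w (fiX X (NN X.e w) w z 0) (fiX X (NN X.e w) w z 1) (fiX X (NN X.e w) w z 6) (fiX X (NN X.e w) w z 9)

/-- The procedure is correct for the calls with the fields in question (the hypothesis of `StREC` of the project GS). -/
def TagX {α : Type} (X : Sys α) (w : List α) (z : ℕ) : Prop :=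
  IniX X (NN X.e w) w z < NN X.e w ∧ LenX X (NN X.e w) w z < NN X.e w ∧
  (∀ j < LenX X (NN X.e w) w z, OkX X w (DelX X (NN X.e w) w z j) ∧ rkX X w (DelX X (NN X.e w) w z j) < rkX X w z ∧
    ∀ a < NN X.e w, ∀ y < NN X.e w, StpX X (NN X.e w) w z j a y < NN X.e w) ∧
  (∀ a < NN X.e w, OutX X (NN X.e w) w z a < NN X.e w) ∧
  ValX X w z = OutX X (NN X.e w) w z (Nat.rec (IniX X (NN X.e w) w z)
    (fun j a => StpX X (NN X.e w) w z j a (ValX X w (DelX X (NN X.e w) w z j))) (LenX X (NN X.e w) w z) : ℕ)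

/-- The language of the family. -/
def LangX {α : Type} (X : Sys α) : Set (List α) :=
  {w | if X.pl w = 1 then WNs (AX X w) X.sk (HX X w) (X.R w) true (X.b0 (NN X.e w) w)
    else ¬ WNs (AX X w) X.sk (HX X w) (X.R w) false (X.b0 (NN X.e w) w)}

end Pool.Agent.Helper79.GT
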