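import Pool.Agent.Helper79.GS.Lib
import Pool.Agent.Helper79.GS.Defs3

/-!
# Project GT (MP_c2d095_lc).  Definitions 4: simulation of space bounded Turing machines by E2 functions

`M`: a machine over `Fin 5`.  `N`: a large number (bound of all values, number of steps).  A configuration is a number with
`2 + 2 * tapes` digits in a base `β`: 0: state; 1: position of the input head; `2 + 2 t`: head of the tape `t`;
`3 + 2 t`: contents of the tape `t` (digits in the base `nG M`, blank is `0`).  The input word is given by its length `l` and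
the function `lt` of its letters (`0`: no letter; `cd a + 1`: the letter `a`).
-/

set_option autoImplicit false

namespace Pool.Agent.Helper79.GT

open Pool.Agent.Helper73.DC Pool.Agent.Helper79.GS Finset
open scoped Classical

/-- Number of states. -/
noncomputable def nQ (M : OTM (Fin 5)) : ℕ := Nat.card M.Q

/-- Number of a state. -/
noncomputable def cQ (M : OTM (Fin 5)) (q : M.Q) : ℕ := (@Finite.equivFin M.Q M.finQ q).val

/-- Base of the tapes. -/
noncomputable def nG (M : OTM (Fin 5)) : ℕ := Nat.card M.Γ + 1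

/-- Number of a tape symbol (`0`: blank). -/
noncomputable def cG (M : OTM (Fin 5)) (g : M.Γ) : ℕ :=
  if g = M.blank then 0 else (@Finite.equivFin M.Γ M.finΓ g).val + 1

/-- Number of what the input head sees. -/
noncomputable def cS (s : Sym (Fin 5)) : ℕ :=
  match s with
  | Sym.lm => 0
  | Sym.rm => 6
  | Sym.ch a => cd a + 1

/-- Number of a move. -/
def cM (d : Mv) : ℕ :=
  match d with
  | Mv.L => 0
  | Mv.S => 1
  | Mv.R => 2

/-- The argument of the transition function. -/
abbrev Ky (M : OTM (Fin 5)) : Type := M.Q × Sym (Fin 5) × (Fin M.tapes → M.Γ)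

/-- Number of an argument of the transition function. -/
noncomputable def keyM (M : OTM (Fin 5)) (y : Ky M) : ℕ :=
  cQ M y.1 + nQ M * (cS y.2.1 + 7 * ∑ t : Fin M.tapes, cG M (y.2.2 t) * nG M ^ t.val)

/-- Table of a function of the arguments. -/
noncomputable def tab (M : OTM (Fin 5)) (f : Ky M → ℕ) (x : ℕ) : ℕ :=
  if h : ∃ y, keyM M y = x then f h.choose else 0

/-- `1` if the machine halts. -/
noncomputable def fH (M : OTM (Fin 5)) (y : Ky M) : ℕ := if M.δ y.1 y.2.1 y.2.2 = none then 1 else 0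

/-- New state. -/
noncomputable def fQ (M : OTM (Fin 5)) (y : Ky M) : ℕ :=
  match M.δ y.1 y.2.1 y.2.2 with
  | none => 0
  | some r => cQ M r.1

/-- Move of the input head. -/
noncomputable def fM (M : OTM (Fin 5)) (y : Ky M) : ℕ :=
  match M.δ y.1 y.2.1 y.2.2 with
  | none => 0
  | some r => cM r.2.1

/-- Symbol written on the tape `t`. -/
noncomputable def fW (M : OTM (Fin 5)) (t : ℕ) (y : Ky M) : ℕ :=
  match M.δ y.1 y.2.1 y.2.2 with
  | none => 0
  | some r => if h : t < M.tapes then cG M (r.2.2 ⟨t, h⟩).1 else 0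

/-- Move of the head of the tape `t`. -/
noncomputable def fD (M : OTM (Fin 5)) (t : ℕ) (y : Ky M) : ℕ :=
  match M.δ y.1 y.2.1 y.2.2 with
  | none => 0
  | some r => if h : t < M.tapes then cM (r.2.2 ⟨t, h⟩).2 else 0

/-- New position. -/
def mvC (d x : ℕ) : ℕ := if d = 0 then x - 1 else if d = 1 then x else x + 1

/-- The number with given digits. -/
def cfgN (M : OTM (Fin 5)) (β : ℕ) (f : ℕ → ℕ) : ℕ := ∑ i ∈ range (2 + 2 * M.tapes), f i * β ^ i

/-- What the input head sees. -/
noncomputable def seeN (lt : ℕ → ℕ) (p : ℕ) : ℕ := if p = 0 then 0 else if lt (p - 1) = 0 then 6 else lt (p - 1)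

/-- The argument of the transition function in the configuration `z`. -/
noncomputable def keyN (M : OTM (Fin 5)) (lt : ℕ → ℕ) (β z : ℕ) : ℕ :=
  dg β z 0 + nQ M * (seeN lt (dg β z 1) + 7 * ∑ t ∈ range M.tapes, dg (nG M) (dg β z (3 + 2 * t)) (dg β z (2 + 2 * t)) * nG M ^ t)

/-- One step. -/
noncomputable def stN (M : OTM (Fin 5)) (N l : ℕ) (lt : ℕ → ℕ) (β z : ℕ) : ℕ :=
  if tab M (fH M) (keyN M lt β z) = 1 then z
  else cfgN M β (fun i =>
    if i = 0 then tab M (fQ M) (keyN M lt β z)
    else if i = 1 then min (mvC (tab M (fM M) (keyN M lt β z)) (dg β z 1)) (l + 1)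
    else if i % 2 = 0 then mvC (tab M (fD M ((i - 2) / 2)) (keyN M lt β z)) (dg β z i)
    else sdc N (nG M) (dg β z i) (dg β z (i - 1)) (tab M (fW M ((i - 3) / 2)) (keyN M lt β z)))

/-- The state after `y` steps. -/
noncomputable def itN (M : OTM (Fin 5)) (N l : ℕ) (lt : ℕ → ℕ) (β y : ℕ) : ℕ :=
  Nat.rec (min (cQ M M.q0) N) (fun _ r => min (stN M N l lt β r) N) y

/-- The base. -/
noncomputable def beN (M : OTM (Fin 5)) (C k N l : ℕ) : ℕ := pw N 2 (nG M * (C * l ^ k + C) + l + nQ M + 4)

/-- The simulation: after `N` steps the machine is in an accepting state. -/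
def simP (M : OTM (Fin 5)) (C k N l : ℕ) (lt : ℕ → ℕ) : Prop :=
  ∃ q, cQ M q = dg (beN M C k N l) (itN M N l lt (beN M C k N l) N) 0 ∧ M.acc q

/-- The number of a configuration (`S`: number of cells). -/
noncomputable def numC (M : OTM (Fin 5)) (β S : ℕ) (c : M.Cfg) : ℕ :=
  cfgN M β (fun i =>
    if i = 0 then cQ M c.q
    else if i = 1 then c.pos
    else if i % 2 = 0 then (if h : (i - 2) / 2 < M.tapes then c.hd ⟨(i - 2) / 2, h⟩ else 0)
    else (if h : (i - 3) / 2 < M.tapes then ∑ j ∈ range S, cG M (c.tp ⟨(i - 3) / 2, h⟩ j) * nG M ^ j else 0))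

/-- Configurations within the bounds. -/
def OkC (M : OTM (Fin 5)) (S l : ℕ) (c : M.Cfg) : Prop :=
  c.pos ≤ l + 1 ∧ (∀ t, c.hd t < S) ∧ ∀ t, ∀ i, S ≤ i → c.tp t i = M.blank

end Pool.Agent.Helper79.GT
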