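import Pool.Agent.Helper79.GT.Defs3
import Pool.Agent.Helper79.GT.Defs4

/-!
# Project GT (MP_c2d095_lc).  Definitions 5: the family of games of the theorem

Instances: `Pool/Agent/Helper79/GT/Defs.lean` (`inst`).  Boards are numbers `< PP = 3 ^ (n * n)`; a board `b` with the
difference `d₀ - B + i`, `i < MM`, is the number `b + PP * i`; the numbers `TT = PP * MM` and `TT + 1` are the boards in which
White and Black have won by a declared placement.  `Sm i` decides the declarations `i` (a simulation of a Turing machine).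
-/

set_option autoImplicit false

namespace Pool.Agent.Helper79.GT

open Pool.Agent.Helper19.SK Pool.Agent.Helper73.DC Pool.Agent.Helper79.GS Finset
open scoped Classical

/-! ## Parts of the word -/

/-- Position of the first separator: the size `n`. -/
noncomputable def nV (w : List (Fin 5)) : ℕ := bmin w.length (fun i => lett w i = cd (4 : Fin 5) + 1)

/-- Position of the second separator. -/
noncomputable def q2 (w : List (Fin 5)) : ℕ := bmin w.length (fun i => nV w < i ∧ lett w i = cd (4 : Fin 5) + 1)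

/-- Position of the third separator. -/
noncomputable def q3 (w : List (Fin 5)) : ℕ := bmin w.length (fun i => q2 w < i ∧ lett w i = cd (4 : Fin 5) + 1)

/-- Position of the fourth separator. -/
noncomputable def q4 (w : List (Fin 5)) : ℕ := bmin w.length (fun i => q3 w < i ∧ lett w i = cd (4 : Fin 5) + 1)

/-- The number `m`. -/
noncomputable def mV (w : List (Fin 5)) : ℕ := q3 w - q2 w - 1

/-- Stones captured by Black. -/
noncomputable def kbV (w : List (Fin 5)) : ℕ := q4 w - q3 w - 1

/-- Stones captured by White. -/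
noncomputable def kwV (w : List (Fin 5)) : ℕ := w.length - q4 w - 1

/-- Position of the cell `p` of the board number `j` (the letter number `n * n` is the player). -/
noncomputable def bpV (w : List (Fin 5)) (j p : ℕ) : ℕ := nV w + 1 + j * (nV w * nV w + 1) + p

/-- Content of the cell `p` of the board number `j`. -/
noncomputable def cntV (w : List (Fin 5)) (j p : ℕ) : ℕ :=
  if lett w (bpV w j p) = cd (1 : Fin 5) + 1 then 1 else if lett w (bpV w j p) = cd (2 : Fin 5) + 1 then 2 else 0

/-- Player of the situation number `j`. -/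
noncomputable def sdV (w : List (Fin 5)) (j : ℕ) : ℕ :=
  if lett w (bpV w j (nV w * nV w)) = cd (1 : Fin 5) + 1 then 1 else 0

/-- Budget of placements which are not reversible. -/
noncomputable def R0 (w : List (Fin 5)) : ℕ := (mV w + 1) * (2 * (nV w * nV w + 1) ^ 2 + 1)

/-- Half of the window. -/
noncomputable def BB (w : List (Fin 5)) : ℕ := (2 * R0 w + 1) * (nV w * nV w)

/-- The window. -/
noncomputable def MM (w : List (Fin 5)) : ℕ := 2 * BB w + 1

/-- Number of boards. -/
noncomputable def PP (N : ℕ) (w : List (Fin 5)) : ℕ := pw N 3 (nV w * nV w)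

/-- Number of pairs. -/
noncomputable def TT (N : ℕ) (w : List (Fin 5)) : ℕ := PP N w * MM w

/-- The situation (player `s`, board `u`) has occurred. -/
def HV (sk : Bool) (N : ℕ) (w : List (Fin 5)) (s u : ℕ) : Prop :=
  u < TT N w ∧ ∃ j < w.length, 1 ≤ j ∧ nV w + 1 + (j + 1) * (nV w * nV w + 1) ≤ q2 w ∧ (sk = true → sdV w j = s) ∧
    ∀ p < nV w * nV w, dg 3 (u % PP N w) p = cntV w j p

/-! ## Boards -/

/-- The number `1` for `c = 1`, otherwise `0`. -/
def o1 (c : ℕ) : ℕ := if c = 1 then 1 else 0

/-- Number of stones. -/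
noncomputable def numN (n c u : ℕ) : ℕ := ∑ v ∈ range (n * n), if dg 3 u v = colN c then 1 else 0

/-- Territory. -/
noncomputable def terN (N n c u : ℕ) : ℕ :=
  ∑ v ∈ range (n * n), if dg 3 u v = 0 ∧ tchN N n u v (colN c) ∧ ¬ tchN N n u v (colN (1 - c)) then 1 else 0

/-- Letter (number plus one) of a content. -/
noncomputable def lcN (x : ℕ) : ℕ :=
  if x = 0 then cd (0 : Fin 5) + 1 else if x = 1 then cd (1 : Fin 5) + 1 else cd (2 : Fin 5) + 1

/-- Letters of the word of a placement: the instance, the player, two boards. -/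
noncomputable def vlt (w : List (Fin 5)) (c b b' i : ℕ) : ℕ :=
  if i < w.length then lett w i
  else if i = w.length then (if c = 1 then cd (1 : Fin 5) + 1 else cd (2 : Fin 5) + 1)
  else if i < w.length + 1 + nV w * nV w then lcN (dg 3 b (i - w.length - 1))
  else if i < w.length + 1 + 2 * (nV w * nV w) then lcN (dg 3 b' (i - w.length - 1 - nV w * nV w))
  else 0

/-- The declarations `i`. -/
def dcN (Sm : Bool → ℕ → ℕ → (ℕ → ℕ) → Prop) (N : ℕ) (w : List (Fin 5)) (i : Bool) (c b b' : ℕ) : Prop :=
  Sm i N (w.length + 1 + 2 * (nV w * nV w)) (vlt w c b b')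

/-- Undeclared placements. -/
def unN (Sm : Bool → ℕ → ℕ → (ℕ → ℕ) → Prop) (N : ℕ) (w : List (Fin 5)) (c b b' : ℕ) : Prop :=
  mvN N (nV w) c b b' ∧ (mvN N (nV w) (1 - c) b' b ∨ (¬ dcN Sm N w false c b b' ∧ ¬ dcN Sm N w true c b b'))

/-- Placements in the window. -/
def mvV (Sm : Bool → ℕ → ℕ → (ℕ → ℕ) → Prop) (N : ℕ) (w : List (Fin 5)) (c u x : ℕ) : Prop :=
  (u < TT N w ∧ x < TT N w ∧ unN Sm N w c (u % PP N w) (x % PP N w) ∧
    x / PP N w + numN (nV w) 0 (x % PP N w) + numN (nV w) 1 (u % PP N w) + o1 c =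
      u / PP N w + numN (nV w) 0 (u % PP N w) + numN (nV w) 1 (x % PP N w) + (1 - o1 c)) ∨
  (u < TT N w ∧ x = TT N w + o1 c ∧ ∃ y < PP N w, mvN N (nV w) c (u % PP N w) y ∧
    ¬ mvN N (nV w) (1 - c) y (u % PP N w) ∧ dcN Sm N w true c (u % PP N w) y)

/-- Positive part of the score. -/
noncomputable def xN (tc : Bool) (N : ℕ) (w : List (Fin 5)) (u : ℕ) : ℕ :=
  if tc = true then terN N (nV w) 1 (u % PP N w) + kbV w + u / PP N w else areaN N (nV w) 1 (u % PP N w)

/-- Negative part of the score. -/
noncomputable def yN (tc : Bool) (N : ℕ) (w : List (Fin 5)) (u : ℕ) : ℕ :=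
  if tc = true then terN N (nV w) 0 (u % PP N w) + kwV w + BB w else areaN N (nV w) 0 (u % PP N w)

/-- Change of the score by a ko capture. -/
def gV (tc : Bool) : ℕ := if tc = true then 3 else 4

/-- Scores of the two players. -/
noncomputable def arV (tc : Bool) (N : ℕ) (w : List (Fin 5)) (c u : ℕ) : ℕ :=
  if u < TT N w then
    if yN tc N w u < xN tc N w u then (if c = 1 then 4 * ((xN tc N w u - yN tc N w u + gV tc - 1) / gV tc) else 0)
    else (if c = 1 then 0 else 4 * ((yN tc N w u - xN tc N w u) / gV tc))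
  else if u = TT N w + 1 ∧ c = 1 then 4 else 0

/-- The board at the start. -/
noncomputable def b0V (N : ℕ) (w : List (Fin 5)) : ℕ :=
  ∑ p ∈ range (nV w * nV w), cntV w 0 p * pw N 3 p + PP N w * BB w

/-- The family of games. -/
noncomputable def goX (sk tc : Bool) (e : ℕ) (Sm : Bool → ℕ → ℕ → (ℕ → ℕ) → Prop) : Sys (Fin 5) where
  sk := sk
  e := e
  K w := 2 * (nV w * nV w) + MM w + 2
  S w := 4 * (2 * (nV w * nV w) + kbV w + kwV w + MM w + 8)
  R w := R0 w + 1
  mv := mvV Sm
  ar := arV tc
  H := HV sk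
  b0 := b0V
  pl w := sdV w 0

/-- The numbers of the positions in the window. -/
noncomputable def wcode {n : ℕ} (M : ℕ) (x : (Pos (Fin n × Fin n) × Fin M) ⊕ Bool) : ℕ :=
  match x with
  | Sum.inl a => codeB a.1 + 3 ^ (n * n) * a.2.val
  | Sum.inr c => 3 ^ (n * n) * M + bn c

end Pool.Agent.Helper79.GT
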